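import Mathlib

/-!
Scheduling by repeated halving of blocks of days.
-/

namespace Pool.Agent.P.MP_90a930_lc.Bp

variable {ι κ : Type} [DecidableEq ι] (inc : κ → ι → Prop) [∀ k, DecidablePred (inc k)]

/-- the number of members of `F` at the place `k` -/
def dg (F : Finset ι) (k : κ) : ℕ := (F.filter (inc k)).card

/-- every subset of `E` can be halved at all places at once, up to one -/
def Halves (E : Finset ι) : Prop :=
  ∀ F ⊆ E, ∃ χ : ι → ℕ, (∀ x, χ x < 2) ∧
    ∀ k b, 2 * dg inc (F.filter fun x => χ x = b) k ≤ dg inc F k + 2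

/-- every subset of `E` with fewer than `B` members at each place has a proper `B`-colouring -/
def Colours (E : Finset ι) (B : ℕ) : Prop :=
  ∀ F ⊆ E, (∀ k, dg inc F k + 1 ≤ B) → ∃ c : ι → ℕ, (∀ x, c x < B) ∧
    ∀ k, ∀ x ∈ F, ∀ y ∈ F, inc k x → inc k y → c x = c y → x = y

variable {inc}

omit [DecidableEq ι] in
theorem dg_mono {F F' : Finset ι} (h : F ⊆ F') (k : κ) : dg inc F k ≤ dg inc F' k :=
  Finset.card_le_card (Finset.filter_subset_filter _ h)

theorem dg_union (F F' : Finset ι) (k : κ) : dg inc (F ∪ F') k ≤ dg inc F k + dg inc F' k := by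
  unfold dg
  rw [Finset.filter_union]
  exact Finset.card_union_le _ _

omit [DecidableEq ι] in
theorem dg_fibre {F : Finset ι} {J : Finset ℕ} (φ : ι → ℕ) (h : ∀ x ∈ F, φ x ∈ J) (k : κ) :
    dg inc F k = ∑ b ∈ J, dg inc (F.filter fun x => φ x = b) k := by
  unfold dg
  rw [Finset.card_eq_sum_card_fiberwise (f := φ) (t := J)
    fun x hx => h x (Finset.mem_filter.1 hx).1]
  exact Finset.sum_congr rfl fun b _ => by rw [Finset.filter_comm]

theorem block {E : Finset ι} {B : ℕ} (hs : Halves inc E) (hv : Colours inc E B) (hB : 0 < B)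
    (I : ℕ → ℕ → Finset ι) (hI : ∀ j a, I j a ⊆ E) (u A : ℕ → κ → ℝ)
    (hu : ∀ j a k, (dg inc (I j a) k : ℝ) ≤ u j k) (h0 : ∀ k, 1 ≤ A 0 k)
    (hA : ∀ j k, 2 * (A j k + u j k + 1) ≤ A (j + 1) k) (j : ℕ) :
    ∀ S : ℕ → Finset ι, (∀ a, S a ⊆ E) →
      (∀ a k, A j k + dg inc (S a) k ≤ (B : ℝ) * 2 ^ j) →
      ∃ on : ι → ℕ → Prop, (∀ t k x y, on x t → on y t → inc k x → inc k y → x = y) ∧
        (∀ a, ∀ x ∈ S a, ∃ s, a * (B * 2 ^ j) ≤ s ∧ s < (a + 1) * (B * 2 ^ j) ∧ on x s) ∧
        ∀ g < j, ∀ a, ∀ x ∈ I g a,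
          ∃ s, a * (B * 2 ^ g) ≤ s ∧ s < (a + 1) * (B * 2 ^ g) ∧ on x s := by
  induction j with
  | zero =>
    intro S hS hl
    have k1 : ∀ a k, dg inc (S a) k + 1 ≤ B := fun a k => by
      have e1 := hl a k
      have e2 := h0 k
      have e3 : ((dg inc (S a) k + 1 : ℕ) : ℝ) ≤ B := by
        push_cast
        rw [pow_zero] at e1
        linarith
      exact_mod_cast e3
    choose c c1 c2 using fun a => hv (S a) (hS a) (k1 a)
    refine ⟨fun x t => x ∈ S (t / B) ∧ c (t / B) x = t % B,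
      fun t k x y hx hy p q => c2 _ k x hx.1 y hy.1 p q (hx.2.trans hy.2.symm),
      fun a x hx => ?_, fun g hg => absurd hg (Nat.not_lt_zero _)⟩
    have e := (Nat.div_mod_unique hB (a := c a x + B * a) (d := a) (c := c a x)).2 ⟨rfl, c1 a x⟩
    have e' := c1 a x
    refine ⟨c a x + B * a, ?_, ?_, ?_⟩
    · rw [pow_zero, mul_one, mul_comm]; omega
    · rw [pow_zero, mul_one, add_mul, mul_comm a]; omega
    · beta_reduce
      rw [e.1, e.2]
      exact ⟨hx, rfl⟩
  | succ j ih =>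
    intro S hS hl
    choose χ c1 c2 using fun a => hs (S a) (hS a)
    obtain ⟨on, o1, o2, o3⟩ := ih
      (fun a => ((S (a / 2)).filter fun x => χ (a / 2) x = a % 2) ∪ I j a)
      (fun a => Finset.union_subset ((Finset.filter_subset _ _).trans (hS _)) (hI j a))
      fun a k => by
        have e1 : (dg inc (((S (a / 2)).filter fun x => χ (a / 2) x = a % 2) ∪ I j a) k : ℝ) ≤
            dg inc ((S (a / 2)).filter fun x => χ (a / 2) x = a % 2) k + dg inc (I j a) k := by
          exact_mod_cast dg_union _ _ k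
        have e2 : 2 * (dg inc ((S (a / 2)).filter fun x => χ (a / 2) x = a % 2) k : ℝ) ≤
            dg inc (S (a / 2)) k + 2 := by exact_mod_cast c2 (a / 2) k (a % 2)
        have e3 := hl (a / 2) k
        have e4 := hA j k
        have e5 := hu j a k
        rw [pow_succ] at e3
        linarith
    refine ⟨on, o1, fun a x hx => ?_, fun g hg a x hx => ?_⟩
    · have b2 := c1 a x
      have d1 : (2 * a + χ a x) / 2 = a := by omega
      have d2 : (2 * a + χ a x) % 2 = χ a x := by omega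
      obtain ⟨s, s1, s2, s3⟩ := o2 (2 * a + χ a x) x (Finset.mem_union_left _ (by
        rw [d1, d2]; exact Finset.mem_filter.2 ⟨hx, rfl⟩))
      refine ⟨s, le_trans ?_ s1, lt_of_lt_of_le s2 ?_, s3⟩
      · calc a * (B * 2 ^ (j + 1)) = (2 * a) * (B * 2 ^ j) := by ring
          _ ≤ _ := Nat.mul_le_mul_right _ (by omega)
      · calc (2 * a + χ a x + 1) * (B * 2 ^ j) ≤ (2 * a + 2) * (B * 2 ^ j) :=
            Nat.mul_le_mul_right _ (by omega)
          _ = _ := by ring
    · rcases (Nat.lt_succ_iff.1 hg).lt_or_eq with k | rfl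
      · exact o3 g k a x hx
      · exact o2 a x (Finset.mem_union_right _ hx)

omit [DecidableEq ι] in
theorem classes {E : Finset ι} (hs : Halves inc E) (i : ℕ) (F : Finset ι) (hF : F ⊆ E) :
    ∃ c : ι → ℕ, (∀ x, c x < 2 ^ i) ∧
      ∀ k b, 2 ^ i * dg inc (F.filter fun x => c x = b) k ≤ dg inc F k + 2 * 2 ^ i := by
  induction i with
  | zero =>
    refine ⟨fun _ => 0, fun _ => Nat.one_pos, fun k b => ?_⟩
    have := dg_mono (inc := inc) (Finset.filter_subset (fun _ => 0 = b) F) k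
    beta_reduce
    omega
  | succ i ih =>
    obtain ⟨c, c1, c2⟩ := ih
    choose χ x1 x2 using fun b =>
      hs (F.filter fun x => c x = b) ((Finset.filter_subset _ _).trans hF)
    refine ⟨fun x => 2 * c x + χ (c x) x, fun x => ?_, fun k b => ?_⟩
    · have := c1 x
      have := x1 (c x) x
      beta_reduce
      rw [pow_succ]
      omega
    · have e1 : (F.filter fun x => 2 * c x + χ (c x) x = b) ⊆
          (F.filter fun x => c x = b / 2).filter fun x => χ (b / 2) x = b % 2 := by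
        intro x hx
        obtain ⟨p, q⟩ := Finset.mem_filter.1 hx
        have := x1 (c x) x
        have e : c x = b / 2 := by omega
        refine Finset.mem_filter.2 ⟨Finset.mem_filter.2 ⟨p, e⟩, ?_⟩
        rw [← e]
        omega
      have e2 := (Nat.mul_le_mul_left 2 (dg_mono (inc := inc) e1 k)).trans (x2 (b / 2) k (b % 2))
      have e3 := Nat.mul_le_mul_left (2 ^ i) e2
      have e4 := c2 k (b / 2)
      rw [mul_add, ← mul_assoc] at e3
      beta_reduce
      rw [pow_succ]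
      omega

theorem card_residue (R q ρ : ℕ) :
    (((Finset.range R).filter fun b => b % q = ρ).card : ℝ) ≤ (R : ℝ) / q + 1 := by
  have k : ((Finset.range R).filter fun b => b % q = ρ).card ≤ (Finset.range (R / q + 1)).card := by
    refine Finset.card_le_card_of_injOn (fun b => b / q) (fun b hb => ?_) fun b hb b' hb' e => ?_
    · have := Finset.mem_range.1 (Finset.mem_filter.1 hb).1
      exact Finset.mem_coe.2 (Finset.mem_range.2
        (Nat.lt_succ_of_le (Nat.div_le_div_right this.le)))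
    · have e1 := (Finset.mem_filter.1 hb).2
      have e2 := (Finset.mem_filter.1 hb').2
      have e' : b / q = b' / q := e
      rw [← Nat.div_add_mod b q, ← Nat.div_add_mod b' q, e', e1, e2]
  rw [Finset.card_range] at k
  have k2 : ((R / q : ℕ) : ℝ) ≤ (R : ℝ) / q := Nat.cast_div_le
  have k3 : (((Finset.range R).filter fun b => b % q = ρ).card : ℝ) ≤ (R / q : ℕ) + 1 := by
    exact_mod_cast k
  linarith

omit [DecidableEq ι] in
theorem dg_residue {T : Finset ι} {R : ℕ} (hR : 0 < R) {c : ι → ℕ} (c1 : ∀ x, c x < R) (k : κ)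
    (c2 : ∀ b, R * dg inc (T.filter fun x => c x = b) k ≤ dg inc T k + 2 * R) (q ρ : ℕ) :
    (dg inc (T.filter fun x => c x % q = ρ) k : ℝ) ≤
      ((R : ℝ) / q + 1) * (dg inc T k / R + 2) := by
  have hR' : (0 : ℝ) < R := by exact_mod_cast hR
  rw [dg_fibre (J := (Finset.range R).filter fun b => b % q = ρ) c fun x hx =>
    Finset.mem_filter.2 ⟨Finset.mem_range.2 (c1 x), (Finset.mem_filter.1 hx).2⟩, Nat.cast_sum]
  refine (Finset.sum_le_card_nsmul _ _ ((dg inc T k : ℝ) / R + 2) fun b _ => ?_).trans ?_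
  · have e1 := (Nat.mul_le_mul_left R (dg_mono (inc := inc) (Finset.filter_subset_filter
      (fun x => c x = b) (Finset.filter_subset (fun x => c x % q = ρ) T)) k)).trans (c2 b)
    have e2 : (R : ℝ) * dg inc ((T.filter fun x => c x % q = ρ).filter fun x => c x = b) k ≤
        dg inc T k + 2 * R := by exact_mod_cast e1
    rw [div_add' _ _ _ hR'.ne', le_div_iff₀ hR']
    linarith
  · rw [nsmul_eq_mul]
    exact mul_le_mul_of_nonneg_right (card_residue R q ρ) (by positivity)

theorem window {on : ℕ → Prop} {P o h f : ℕ} (ho : o < P) (hf : P + h ≤ f + 1)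
    (H : ∀ a, ∃ s, a * P + o ≤ s ∧ s < a * P + o + h ∧ on s) (t : ℕ) :
    ∃ s, t ≤ s ∧ s < t + f ∧ on s := by
  obtain ⟨s, s1, s2, s3⟩ := H ((t + P - 1 - o) / P)
  have e1 := Nat.div_add_mod (t + P - 1 - o) P
  have e2 := Nat.mod_lt (t + P - 1 - o) (by omega : 0 < P)
  rw [mul_comm] at e1
  exact ⟨s, by omega, by omega, s3⟩

theorem sched_abs {E : Finset ι} {B Q i : ℕ} (hs : Halves inc E) (hv : Colours inc E B)
    (hB : 0 < B) (hQ : 0 < Q) (f lv st : ι → ℕ) {η : ℝ}
    (h1 : ∀ x ∈ E, Q ≤ st x ∧ st x ≤ 2 * Q)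
    (h2 : ∀ x ∈ E, (st x + 1) * (B * 2 ^ lv x) ≤ f x + 1)
    (h3 : ∀ x ∈ E, 1 / (st x : ℝ) + 1 / 2 ^ i ≤ η * (B * 2 ^ lv x) * (1 / f x))
    (h4 : ∀ k, B * η * ∑ x ∈ E.filter (inc k), 1 / (f x : ℝ) +
      (4 * (Q + 1) * (2 ^ i + 1) + 3) ≤ B) :
    ∃ on : ι → ℕ → Prop, (∀ t k x y, on x t → on y t → inc k x → inc k y → x = y) ∧
      ∀ x ∈ E, ∀ t, ∃ s, t ≤ s ∧ s < t + f x ∧ on x s := by
  choose c c1 c2 using fun j q => classes hs i ((E.filter fun x => lv x = j).filter
    fun x => st x = q) ((Finset.filter_subset _ _).trans (Finset.filter_subset _ _))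
  obtain ⟨J, hJ⟩ : ∃ J, ∀ x ∈ E, lv x < J :=
    ⟨E.sup lv + 1, fun x hx => Nat.lt_succ_of_le (Finset.le_sup hx)⟩
  obtain ⟨K, hK⟩ : ∃ K : ℝ, K = 2 * (Q + 1) * (2 ^ i + 1) := ⟨_, rfl⟩
  obtain ⟨w, hw⟩ : ∃ w : ℕ → κ → ℝ, ∀ j k,
      w j k = ∑ x ∈ (E.filter (inc k)).filter fun x => lv x = j, 1 / (f x : ℝ) :=
    ⟨_, fun _ _ => rfl⟩
  refine (block hs hv hB
    (fun j a => (E.filter fun x => lv x = j).filter fun x => c j (st x) x % st x = a % st x)
    (fun j a => (Finset.filter_subset _ _).trans (Finset.filter_subset _ _))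
    (fun j k => η * (B * 2 ^ j) * w j k + K)
    (fun j k => 2 ^ j * (B * η * ∑ g ∈ Finset.range j, w g k + (2 * K + 3)) - 2 * (K + 1))
    (fun j a k => ?_) (fun k => by simp; linarith)
    (fun j k => by rw [Finset.sum_range_succ, pow_succ]; exact le_of_eq (by ring)) J
    (fun _ => ∅) (fun _ => Finset.empty_subset _) fun a k => ?_).elim fun on o => ?_
  rotate_left 2
  · obtain ⟨o1, -, o3⟩ := o
    refine ⟨on, o1, fun x hx => ?_⟩
    have q0 : 0 < st x := hQ.trans_le (h1 x hx).1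
    have H0 : 0 < B * 2 ^ lv x := by positivity
    refine window (P := st x * (B * 2 ^ lv x)) (h := B * 2 ^ lv x)
      (o := c (lv x) (st x) x % st x * (B * 2 ^ lv x))
      (Nat.mul_lt_mul_of_pos_right (Nat.mod_lt _ q0) H0) (by rw [← add_one_mul]; exact h2 x hx)
      fun a => ?_
    obtain ⟨s, s1, s2, s3⟩ := o3 (lv x) (hJ x hx) (a * st x + c (lv x) (st x) x % st x) x
      (Finset.mem_filter.2 ⟨Finset.mem_filter.2 ⟨hx, rfl⟩, by
        rw [Nat.mul_add_mod_self_right, Nat.mod_mod]⟩)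
    exact ⟨s, le_of_eq_of_le (by ring) s1, lt_of_lt_of_eq s2 (by ring), s3⟩
  · rw [dg_fibre (J := Finset.Icc Q (2 * Q)) st fun x hx => Finset.mem_Icc.2
      (h1 x (Finset.mem_filter.1 (Finset.mem_filter.1 hx).1).1), Nat.cast_sum, hw,
      ← Finset.sum_fiberwise_of_maps_to (t := Finset.Icc Q (2 * Q)) (g := st) fun x hx =>
        Finset.mem_Icc.2 (h1 x (Finset.mem_filter.1 (Finset.mem_filter.1 hx).1).1),
      Finset.mul_sum]
    have eK : K = ∑ _q ∈ Finset.Icc Q (2 * Q), 2 * ((2 : ℝ) ^ i + 1) := by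
      rw [Finset.sum_const, Nat.card_Icc, nsmul_eq_mul, hK, show 2 * Q + 1 - Q = Q + 1 by omega]
      push_cast
      ring
    rw [eK, ← Finset.sum_add_distrib]
    refine Finset.sum_le_sum fun q hq => ?_
    have q1 : (1 : ℝ) ≤ q := by exact_mod_cast hQ.trans_le (Finset.mem_Icc.1 hq).1
    have e1 : ((E.filter fun x => lv x = j).filter fun x =>
        c j (st x) x % st x = a % st x).filter (fun x => st x = q) =
        ((E.filter fun x => lv x = j).filter fun x => st x = q).filter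
          fun x => c j q x % q = a % q := by
      rw [Finset.filter_comm]
      exact Finset.filter_congr fun x hx => by rw [(Finset.mem_filter.1 hx).2]
    have e2 := dg_residue (inc := inc) (Nat.two_pow_pos i) (c1 j q) k (c2 j q k) q (a % q)
    have e3 : (dg inc ((E.filter fun x => lv x = j).filter fun x => st x = q) k : ℝ) *
        (1 / q + 1 / 2 ^ i) ≤ η * (B * 2 ^ j) * ∑ x ∈ ((E.filter (inc k)).filter
          fun x => lv x = j).filter fun x => st x = q, 1 / (f x : ℝ) := by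
      rw [dg, Finset.filter_comm, Finset.filter_comm _ (inc k), ← nsmul_eq_mul,
        ← Finset.sum_const, Finset.mul_sum]
      refine Finset.sum_le_sum fun x hx => ?_
      obtain ⟨p1, p2⟩ := Finset.mem_filter.1 hx
      obtain ⟨p3, p4⟩ := Finset.mem_filter.1 p1
      rw [← p2, ← p4]
      exact h3 x (Finset.mem_filter.1 p3).1
    rw [e1]
    push_cast at e2
    have R0 : (0 : ℝ) < 2 ^ i := by positivity
    have e4 : (2 : ℝ) ^ i / q ≤ 2 ^ i := div_le_self R0.le q1
    generalize (dg inc ((E.filter fun x => lv x = j).filter fun x => st x = q) k : ℝ) = n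
      at e2 e3
    have e5 : ((2 : ℝ) ^ i / q + 1) * (n / 2 ^ i + 2) =
        n * (1 / q + 1 / 2 ^ i) + 2 * (2 ^ i / q + 1) := by
      field_simp
    linarith
  · have e1 : ∑ g ∈ Finset.range J, w g k = ∑ x ∈ E.filter (inc k), 1 / (f x : ℝ) := by
      simp only [hw]
      exact Finset.sum_fiberwise_of_maps_to
        (fun x hx => Finset.mem_range.2 (hJ x (Finset.mem_filter.1 hx).1)) _
    have e2 : B * η * ∑ g ∈ Finset.range J, w g k + (2 * K + 3) ≤ B := by
      rw [e1, hK]
      exact le_of_eq_of_le (by ring) (h4 k)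
    have e3 := mul_le_mul_of_nonneg_left e2 (by positivity : (0 : ℝ) ≤ 2 ^ J)
    have e4 : 0 ≤ K := by rw [hK]; positivity
    have e5 : (dg inc ∅ k : ℝ) = 0 := by simp [dg]
    rw [e5]
    linarith

end Pool.Agent.P.MP_90a930_lc.Bp
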