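import Pool.Agent.P.MP_90a930_lc.DgBase

namespace Pool.Agent.P.MP_90a930_lc.Dg

open SimpleGraph

/-- the edges at one vertex bound the density from below -/
theorem star_load {V : Type} [Finite V] {G : SimpleGraph V} {f : Sym2 V → ℕ} {d : ℝ}
    (hne : G.edgeSet.Nonempty) (hf : ∀ e ∈ G.edgeSet, 1 ≤ f e) (hd : d ∈ upperBounds (dset G f))
    (F : Finset (Sym2 V)) (hF : ∀ e ∈ F, e ∈ G.edgeSet) (v : V) (hv : ∀ e ∈ F, v ∈ e) :
    ∑ e ∈ F, 1 / (f e : ℝ) ≤ d := by
  classical
  rcases F.eq_empty_or_nonempty with rfl | hFne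
  · obtain ⟨d0, ⟨z, h1, h2, w, h3, h4⟩, -⟩ := exists_density hne hf
    have hw := best_pos hf (fun e he => (h1 e he).1) h2 h3.2
    have h5 : 1 / w ≤ d := hd ⟨z, h1, h2, w, h3, rfl⟩
    have h6 : 0 < 1 / w := by positivity
    rw [Finset.sum_empty]
    linarith
  have hp : ∀ e ∈ F, (0 : ℝ) < f e := fun e he => by
    have := hf e (hF e he)
    exact_mod_cast this
  set S : ℝ := ∑ e ∈ F, 1 / (f e : ℝ) with hS
  have hSpos : 0 < S := Finset.sum_pos (fun e he => one_div_pos.2 (hp e he)) hFne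
  obtain ⟨W, -, hW⟩ := exists_best G f
  let z : Sym2 V → ℝ := fun e => if e ∈ F then 1 / (f e : ℝ) / S else 0
  have z1 : ∀ e, z e ∈ Set.Icc (0 : ℝ) 1 := by
    intro e
    simp only [z]
    split_ifs with h
    · refine ⟨by positivity, ?_⟩
      rw [div_le_one hSpos]
      exact Finset.single_le_sum (f := fun e => 1 / (f e : ℝ)) (fun e _ => by positivity) h
    · exact ⟨le_rfl, zero_le_one⟩
  have z2 : ∑ᶠ e ∈ G.edgeSet, z e = 1 := by
    rw [finsum_mem_eq_finite_toFinset_sum _ (Set.toFinite G.edgeSet)]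
    simp only [z]
    rw [← Finset.sum_filter, Finset.filter_mem_eq_inter,
      Finset.inter_eq_right.2 fun e he => (Set.Finite.mem_toFinset _).2 (hF e he),
      ← Finset.sum_div]
    exact div_self hSpos.ne'
  have hpos := best_pos hf (fun e _ => (z1 e).1) z2 (hW z).2
  have hle : W z ≤ 1 / S := by
    obtain ⟨M, hM, h⟩ := (hW z).1
    rw [h, finsum_mem_eq_finite_toFinset_sum _ (Set.toFinite M.edgeSet)]
    have e1 : ∀ e, z e * (f e : ℝ) = if e ∈ F then 1 / S else 0 := by
      intro e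
      simp only [z]
      split_ifs with h1
      · have := (hp e h1).ne'
        field_simp
      · ring
    simp only [e1]
    rw [← Finset.sum_filter, Finset.sum_const, nsmul_eq_mul]
    have hc : (((Set.toFinite M.edgeSet).toFinset.filter fun e => e ∈ F).card : ℝ) ≤ 1 := by
      have : ((Set.toFinite M.edgeSet).toFinset.filter fun e => e ∈ F).card ≤ 1 := by
        rw [Finset.card_le_one]
        intro a ha b hb
        rw [Finset.mem_filter, Set.Finite.mem_toFinset] at ha hb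
        exact ind_of_isMatching hM.prop a ha.1 b hb.1 v (hv a ha.2) (hv b hb.2)
      exact_mod_cast this
    exact mul_le_of_le_one_left (by positivity) hc
  refine le_trans ?_ (hd ⟨z, fun e _ => z1 e, z2, W z, hW z, rfl⟩)
  refine le_trans (le_of_eq ?_) (one_div_le_one_div_of_le hpos hle)
  rw [one_div_one_div]

/-- the star with centre `0` -/
def star (n : ℕ) : SimpleGraph (Fin (n + 1)) where
  Adj u v := u ≠ v ∧ (u = 0 ∨ v = 0)
  symm := ⟨fun _ _ h => ⟨h.1.symm, h.2.symm⟩⟩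
  loopless := ⟨fun _ h => h.1 rfl⟩

/-- frequencies: `x + 1` at leaf 1, `x (x + 1)` at leaf 2, else `x` -/
def starF (n x : ℕ) (e : Sym2 (Fin (n + 1))) : ℕ :=
  if ∃ u ∈ e, u.val = 1 then x + 1 else if ∃ u ∈ e, u.val = 2 then x * (x + 1) else x

theorem star_mem {n : ℕ} {e : Sym2 (Fin (n + 1))} (he : e ∈ (star n).edgeSet) :
    ∃ i : Fin n, e = s(0, i.succ) := by
  induction e using Sym2.ind with
  | h u v =>
    obtain ⟨h1, h2 | h2⟩ := (show u ≠ v ∧ (u = 0 ∨ v = 0) from he)
    · subst h2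
      obtain ⟨i, rfl⟩ := Fin.exists_succ_eq.2 h1.symm
      exact ⟨i, rfl⟩
    · subst h2
      obtain ⟨i, rfl⟩ := Fin.exists_succ_eq.2 h1
      exact ⟨i, Sym2.eq_swap⟩

theorem star_edge {n : ℕ} (i : Fin n) : s(0, i.succ) ∈ (star n).edgeSet :=
  ⟨(Fin.succ_ne_zero i).symm, Or.inl rfl⟩

theorem starF_eq {n : ℕ} (x : ℕ) (i : Fin n) :
    starF n x s(0, i.succ) = if i.val = 0 then x + 1 else if i.val = 1 then x * (x + 1) else x := by
  simp [starF]

theorem star_inj {n : ℕ} : Function.Injective fun i : Fin n => s((0 : Fin (n + 1)), i.succ) :=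
  fun _ _ h => Fin.succ_injective _ (Sym2.congr_right.1 h)

theorem star_sum (y : ℕ) :
    ∑ i : Fin (y + 2), 1 / (starF (y + 2) (y + 1) s(0, i.succ) : ℝ) = 1 := by
  simp only [starF_eq]
  rw [Fin.sum_univ_succ, Fin.sum_univ_succ]
  have h : ∀ i : Fin y, ¬ (i.succ.succ.val = 0) ∧ ¬ (i.succ.succ.val = 1) := by
    intro i
    simp
  simp only [Fin.val_zero, if_true, Fin.succ_zero_eq_one, Fin.val_one, one_ne_zero, if_false,
    (h _).1, (h _).2, Finset.sum_const, Finset.card_univ, Fintype.card_fin, nsmul_eq_mul]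
  push_cast
  field_simp
  ring

/-- a star of density at most one with large frequencies and no feasible schedule -/
theorem star_bad (N : ℕ) : ∃ (n : ℕ) (G : SimpleGraph (Fin n)) (f : Sym2 (Fin n) → ℕ) (d : ℝ),
    G.edgeSet.Nonempty ∧ (∀ e ∈ G.edgeSet, 1 ≤ f e) ∧ (∀ e ∈ G.edgeSet, N ≤ f e) ∧
      IsGreatest (dset G f) d ∧ d ≤ 1 ∧ ¬ Sched G f := by
  classical
  obtain ⟨y, hy1, hyN⟩ : ∃ y : ℕ, 1 ≤ y ∧ N ≤ y := ⟨N + 1, by omega, by omega⟩
  have hge : ∀ e ∈ (star (y + 2)).edgeSet, y + 1 ≤ starF (y + 2) (y + 1) e := by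
    intro e _
    unfold starF
    split_ifs
    · omega
    · exact Nat.le_mul_of_pos_right _ (by omega)
    · exact le_rfl
  have hne : (star (y + 2)).edgeSet.Nonempty := ⟨_, star_edge 0⟩
  have hf : ∀ e ∈ (star (y + 2)).edgeSet, 1 ≤ starF (y + 2) (y + 1) e :=
    fun e he => le_trans (by omega) (hge e he)
  obtain ⟨d, hd⟩ := exists_density hne hf
  refine ⟨y + 3, star (y + 2), starF (y + 2) (y + 1), d, hne, hf,
    fun e he => le_trans (by omega) (hge e he), hd, ?_, ?_⟩
  · refine density_le hf hd.1 fun z w hz hs hw hb => ?_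
    have hE : (Set.toFinite (star (y + 2)).edgeSet).toFinset =
        Finset.univ.image fun i : Fin (y + 2) => s((0 : Fin (y + 3)), i.succ) := by
      ext e
      rw [Set.Finite.mem_toFinset, Finset.mem_image]
      constructor
      · intro he
        obtain ⟨i, rfl⟩ := star_mem he
        exact ⟨i, Finset.mem_univ _, rfl⟩
      · rintro ⟨i, -, rfl⟩
        exact star_edge i
    rw [finsum_mem_eq_finite_toFinset_sum _ (Set.toFinite _), hE,
      Finset.sum_image fun a _ b _ h => star_inj h] at hs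
    refine le_trans hs.symm.le (le_trans ?_ (le_of_eq (congrArg (· * w) (star_sum y))))
    rw [Finset.sum_mul]
    refine Finset.sum_le_sum fun i _ => ?_
    have h1 := hb {s(0, i.succ)} (by simpa using star_edge i) (ind_single _)
    rw [Finset.sum_singleton] at h1
    have h2 : (0 : ℝ) < starF (y + 2) (y + 1) s(0, i.succ) := by
      exact_mod_cast hf _ (star_edge i)
    rw [one_div, inv_mul_eq_div, le_div_iff₀ h2]
    exact h1
  · intro hS
    obtain ⟨on, h1, h2⟩ := hS.on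
    have h3 : ∀ (t : ℕ) (i j : Fin (y + 2)), on s(0, i.succ) t → on s(0, j.succ) t → i = j :=
      fun t i j a b => star_inj (h1 t _ _ 0 a b (Sym2.mem_mk_left _ _) (Sym2.mem_mk_left _ _))
    obtain ⟨t, ht1, -, ht⟩ := h2 _ (star_edge (1 : Fin (y + 2))) 1
    obtain ⟨s, hs1, hs2, hs⟩ := h2 _ (star_edge (0 : Fin (y + 2))) (t - 1)
    rw [starF_eq, if_pos (Fin.val_zero _)] at hs2
    have hst : s ≠ t := by
      rintro rfl
      have := congrArg Fin.val (h3 s 0 1 hs ht)
      simp at this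
    obtain ⟨a, ha1, ha2, ha3, ha4⟩ : ∃ a, a ≤ s ∧ s < a + (y + 1) ∧ a ≤ t ∧ t < a + (y + 1) := by
      rcases Nat.lt_or_ge s t with h | h
      · exact ⟨s, le_rfl, by omega, by omega, by omega⟩
      · exact ⟨t, h, by omega, le_rfl, by omega⟩
    have h4 : ∀ i : Fin (y + 2), ∃ u ∈ Finset.Ico a (a + (y + 1)), on s(0, i.succ) u := by
      intro i
      by_cases h0 : i.val = 0
      · obtain rfl : i = 0 := Fin.ext h0
        exact ⟨s, Finset.mem_Ico.2 ⟨ha1, ha2⟩, hs⟩
      by_cases h1' : i.val = 1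
      · obtain rfl : i = 1 := Fin.ext h1'
        exact ⟨t, Finset.mem_Ico.2 ⟨ha3, ha4⟩, ht⟩
      obtain ⟨u, hu1, hu2, hu⟩ := h2 _ (star_edge i) a
      rw [starF_eq, if_neg h0, if_neg h1'] at hu2
      exact ⟨u, Finset.mem_Ico.2 ⟨hu1, hu2⟩, hu⟩
    choose u hu1 hu2 using h4
    have h5 := Finset.card_le_card_of_injOn (s := Finset.univ) u (fun i _ => hu1 i)
      fun i _ j _ h => h3 (u i) i j (hu2 i) (h ▸ hu2 j)
    simp at h5

end Pool.Agent.P.MP_90a930_lc.Dg
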