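import Pool.Agent.P.MP_90a930_lc.BpSplit
import Pool.Agent.P.MP_90a930_lc.BpBlock
import Pool.Agent.P.MP_90a930_lc.BpViz
import Pool.Agent.P.MP_90a930_lc.BpStar

/-!
Instances with large frequencies and vertex load below one are schedulable.
-/

namespace Pool.Agent.P.MP_90a930_lc.Bp

open Dg

variable {V : Type} [Fintype V] [DecidableEq V] {G : SimpleGraph V} {E : Finset (Sym2 V)}

omit [Fintype V] in
theorem halves (hE : ∀ e ∈ E, e ∈ G.edgeSet) : Halves (fun (v : V) (e : Sym2 V) => v ∈ e) E := by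
  intro F hF
  have ex : ∀ e : Sym2 V, ∃ a b, e = s(a, b) := fun e => by
    induction e using Sym2.ind with
    | h a b => exact ⟨a, b, rfl⟩
  choose l r hlr using ex
  obtain ⟨ε, h1, h2, h3⟩ := split_sign r _ F l rfl
  refine ⟨fun w => if ε w = 1 then 0 else 1, fun w => by beta_reduce; split_ifs <;> omega,
    fun v b => ?_⟩
  unfold dg
  rw [Finset.filter_comm]
  refine count_of_sign h1 ?_ b
  have e : ∑ w ∈ F.filter fun w => v ∈ w, ε w =
      (∑ w ∈ F, if l w = v then ε w else 0) + ∑ w ∈ F, if r w = v then ε w else 0 := by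
    rw [Finset.sum_filter, ← Finset.sum_add_distrib]
    refine Finset.sum_congr rfl fun w hw => ?_
    have ne : l w ≠ r w := by
      have k := hE w (hF hw)
      rw [hlr w] at k
      exact G.ne_of_adj k
    have m : v ∈ w ↔ l w = v ∨ r w = v := by
      conv_lhs => rw [hlr w, Sym2.mem_iff]
      exact or_congr eq_comm eq_comm
    by_cases p : l w = v <;> by_cases q : r w = v
    · exact absurd (p.trans q.symm) ne
    · rw [if_pos (m.2 (Or.inl p)), if_pos p, if_neg q, add_zero]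
    · rw [if_pos (m.2 (Or.inr q)), if_neg p, if_pos q, zero_add]
    · rw [if_neg fun k => (m.1 k).elim p q, if_neg p, if_neg q, add_zero]
  rw [e]
  exact (abs_add_le _ _).trans (by linarith [h2 v, h3 v])

theorem colours (hE : ∀ e ∈ E, e ∈ G.edgeSet) (b : ℕ) :
    Colours (fun (v : V) (e : Sym2 V) => v ∈ e) E (b + 1) := by
  intro F hF hd
  let H : SimpleGraph V :=
    { Adj := fun u v => s(u, v) ∈ F
      symm := ⟨fun u v h => by rwa [Sym2.eq_swap]⟩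
      loopless := ⟨fun u h => G.ne_of_adj (hE _ (hF h)) rfl⟩ }
  have deg : ∀ v, (H.neighborSet v).ncard ≤ b := fun v => by
    refine le_trans ?_ (Nat.le_of_succ_le_succ (hd v))
    rw [dg, ← Set.ncard_coe_finset]
    exact Set.ncard_le_ncard_of_injOn (fun u => s(v, u))
      (fun u hu => Finset.mem_coe.2 (Finset.mem_filter.2 ⟨hu, Sym2.mem_mk_left _ _⟩))
      (fun u _ u' _ e => Sym2.congr_right.1 e) (Set.toFinite _)
  obtain ⟨col, c1, c2⟩ := Vz.vizing H b deg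
  refine ⟨Sym2.lift ⟨fun u v => (col u v).1, fun u v => congrArg Fin.val (c1 u v)⟩,
    fun x => ?_, fun v x hx y hy p q e => ?_⟩
  · induction x using Sym2.ind with
    | h u v => exact (col u v).2
  · obtain ⟨w, rfl⟩ := Sym2.mem_iff_exists.1 p
    obtain ⟨w', rfl⟩ := Sym2.mem_iff_exists.1 q
    rw [c2 v w w' hx hy (Fin.ext e)]

theorem types {Q B : ℕ} (hB : 0 < B) (f : ℕ) : ∃ j q : ℕ, (Q + 1) * B ≤ f →
    (Q ≤ q ∧ q ≤ 2 * Q) ∧ (q + 1) * (B * 2 ^ j) ≤ f + 1 ∧ f + 1 < (q + 2) * (B * 2 ^ j) := by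
  refine ⟨Nat.log 2 ((f + 1) / ((Q + 1) * B)),
    (f + 1) / (B * 2 ^ Nat.log 2 ((f + 1) / ((Q + 1) * B))) - 1, fun h => ?_⟩
  have p0 : 0 < (Q + 1) * B := by positivity
  have m0 : (f + 1) / ((Q + 1) * B) ≠ 0 := (Nat.div_pos (by omega) p0).ne'
  have l1 := (Nat.le_div_iff_mul_le p0).1 (Nat.pow_log_le_self 2 m0)
  have l2 := (Nat.div_lt_iff_lt_mul p0).1
    (Nat.lt_pow_succ_log_self (b := 2) (by norm_num) ((f + 1) / ((Q + 1) * B)))
  generalize Nat.log 2 ((f + 1) / ((Q + 1) * B)) = j at l1 l2 ⊢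
  have H0 : 0 < B * 2 ^ j := by positivity
  have a1 : Q + 1 ≤ (f + 1) / (B * 2 ^ j) :=
    (Nat.le_div_iff_mul_le H0).2 (le_of_eq_of_le (by ring) l1)
  have a2 : (f + 1) / (B * 2 ^ j) < 2 * (Q + 1) :=
    (Nat.div_lt_iff_lt_mul H0).2 (lt_of_lt_of_eq l2 (by rw [Nat.succ_eq_add_one]; ring))
  have a3 := Nat.div_mul_le_self (f + 1) (B * 2 ^ j)
  have a4 : f + 1 < ((f + 1) / (B * 2 ^ j) + 1) * (B * 2 ^ j) :=
    (Nat.div_lt_iff_lt_mul H0).1 (Nat.lt_succ_self _)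
  generalize (f + 1) / (B * 2 ^ j) = m at a1 a2 a3 a4 ⊢
  obtain ⟨q, rfl⟩ : ∃ q, m = q + 1 := ⟨m - 1, by omega⟩
  exact ⟨⟨by omega, by omega⟩, a3, a4⟩

theorem ratio {Q q R H f : ℝ} (hQ : 1 ≤ Q) (h1 : Q ≤ q) (h2 : q ≤ 2 * Q) (hR : 4 * Q ^ 2 ≤ R)
    (hf : 0 < f) (hH : 0 < H) (h3 : f ≤ (q + 2) * H) :
    1 / q + 1 / R ≤ (1 + 3 / Q) * H * (1 / f) := by
  have Q0 : 0 < Q := by linarith
  have q0 : 0 < q := by linarith
  have R0 : 0 < R := by nlinarith
  have e1 : 2 / q ≤ 2 / Q := div_le_div_of_nonneg_left (by norm_num) Q0 h1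
  have e2 : (q + 2) / R ≤ 1 / Q := by
    rw [div_le_div_iff₀ R0 Q0]
    nlinarith
  have e3 : (1 / q + 1 / R) * (q + 2) = 1 + 2 / q + (q + 2) / R := by field_simp
  have e4 : 3 / Q = 2 / Q + 1 / Q := by ring
  rw [mul_one_div, le_div_iff₀ hf]
  calc (1 / q + 1 / R) * f ≤ (1 / q + 1 / R) * ((q + 2) * H) :=
        mul_le_mul_of_nonneg_left h3 (by positivity)
    _ = (1 / q + 1 / R) * (q + 2) * H := by ring
    _ ≤ (1 + 3 / Q) * H := mul_le_mul_of_nonneg_right (by linarith) hH.le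

/-- large frequencies and vertex loads at most `c < 1` give a schedule -/
theorem sched_load {c : ℝ} (hc : c < 1) : ∃ N : ℕ, 1 ≤ N ∧
    ∀ (n : ℕ) (G : SimpleGraph (Fin n)) (f : Sym2 (Fin n) → ℕ), (∀ e ∈ G.edgeSet, N ≤ f e) →
      (∀ (v : Fin n) (F : Finset (Sym2 (Fin n))), (∀ e ∈ F, e ∈ G.edgeSet) → (∀ e ∈ F, v ∈ e) →
        ∑ e ∈ F, 1 / (f e : ℝ) ≤ c) → Sched G f := by
  have ε0 : 0 < 1 - c := sub_pos.2 hc
  obtain ⟨p, hp⟩ := exists_nat_ge (6 / (1 - c))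
  obtain ⟨b, hb⟩ := exists_nat_ge
    (2 * (4 * (((p + 1 : ℕ) : ℝ) + 1) * (2 ^ (4 * (p + 1) ^ 2) + 1) + 3) / (1 - c))
  rw [div_le_iff₀ ε0] at hp hb
  refine ⟨(p + 1 + 1) * (b + 1), Nat.one_le_iff_ne_zero.2 (by positivity), fun n G f hf hl => ?_⟩
  have hE : ∀ e ∈ (Set.toFinite G.edgeSet).toFinset, e ∈ G.edgeSet :=
    fun e he => (Set.Finite.mem_toFinset _).1 he
  choose lv st ht using types (Q := p + 1) (Nat.succ_pos b)
  obtain ⟨on, o1, o2⟩ := sched_abs (Q := p + 1) (i := 4 * (p + 1) ^ 2) (η := 1 + 3 / ((p + 1 : ℕ) : ℝ))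
    (halves hE) (colours hE b) (Nat.succ_pos b) (Nat.succ_pos p) f (fun e => lv (f e))
    (fun e => st (f e)) (fun x hx => (ht _ (hf x (hE x hx))).1)
    (fun x hx => (ht _ (hf x (hE x hx))).2.1)
    (fun x hx => by
      obtain ⟨⟨t1, t2⟩, -, t4⟩ := ht _ (hf x (hE x hx))
      have f0 : 0 < f x := lt_of_lt_of_le (by positivity) (hf x (hE x hx))
      refine ratio (by exact_mod_cast Nat.succ_pos p) (by exact_mod_cast t1)
        (by exact_mod_cast t2) ?_ (by exact_mod_cast f0) (by positivity) ?_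
      · exact_mod_cast (Nat.lt_two_pow_self (n := 4 * (p + 1) ^ 2)).le
      · exact_mod_cast (Nat.le_succ (f x)).trans t4.le)
    (fun v => by
      have w1 := hl v ((Set.toFinite G.edgeSet).toFinset.filter fun e => v ∈ e)
        (fun e he => hE e (Finset.mem_filter.1 he).1) fun e he => (Finset.mem_filter.1 he).2
      generalize ∑ e ∈ (Set.toFinite G.edgeSet).toFinset.filter fun e => v ∈ e,
        1 / (f e : ℝ) = W at w1 ⊢
      generalize 4 * (((p + 1 : ℕ) : ℝ) + 1) * (2 ^ (4 * (p + 1) ^ 2) + 1) + 3 = K at hb ⊢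
      have Q0 : (0 : ℝ) < ((p + 1 : ℕ) : ℝ) := by positivity
      have y0 : 0 ≤ 3 / ((p + 1 : ℕ) : ℝ) := by positivity
      have y1 : 3 / ((p + 1 : ℕ) : ℝ) ≤ (1 - c) / 2 := by
        rw [div_le_iff₀ Q0]
        push_cast
        nlinarith
      generalize 3 / ((p + 1 : ℕ) : ℝ) = y at y0 y1 ⊢
      have y2 : y * W ≤ y * 1 := mul_le_mul_of_nonneg_left (by linarith) y0
      have y3 : (1 + y) * W ≤ (1 + c) / 2 := by nlinarith
      have b0 : (0 : ℝ) ≤ b := Nat.cast_nonneg b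
      have y4 := mul_le_mul_of_nonneg_left y3 (by linarith : (0 : ℝ) ≤ b + 1)
      push_cast
      nlinarith)
  exact sched_of on (fun t x hx y hy v p q => o1 t v x y hx.2 hy.2 p q)
    fun e he => o2 e ((Set.Finite.mem_toFinset _).2 he)

theorem main (c : ℝ) :
    (∃ N : ℕ, ∀ (n : ℕ) (G : SimpleGraph (Fin n)) (f : Sym2 (Fin n) → ℕ) (d : ℝ),
      G.edgeSet.Nonempty → (∀ e ∈ G.edgeSet, 1 ≤ f e) → (∀ e ∈ G.edgeSet, N ≤ f e) →
      IsGreatest (dset G f) d → d ≤ c → Sched G f) ↔ c < 1 := by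
  constructor
  · rintro ⟨N, h⟩
    by_contra k
    obtain ⟨n, G, f, d, a1, a2, a3, a4, a5, a6⟩ := star_bad N
    exact a6 (h n G f d a1 a2 a3 a4 (a5.trans (not_lt.1 k)))
  · intro hc
    obtain ⟨N, -, h⟩ := sched_load hc
    exact ⟨N, fun n G f d a1 a2 a3 a4 a5 => h n G f a3 fun v F b1 b2 =>
      (star_load a1 a2 a4.2 F b1 v b2).trans a5⟩

end Pool.Agent.P.MP_90a930_lc.Bp
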