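import Mathlib

/-!
Balanced two-colourings of the edges of a finite bipartite multigraph.
-/

namespace Pool.Agent.P.MP_90a930_lc.Bp

variable {ι V : Type} [DecidableEq ι] [DecidableEq V]

theorem sum_two {F : Finset ι} {x y : ι} (hx : x ∈ F) (hy : y ∈ F) (hxy : x ≠ y) (h : ι → ℤ) :
    ∑ w ∈ F, h w = h x + h y + ∑ w ∈ (F.erase x).erase y, h w := by
  rw [← Finset.add_sum_erase F h hx,
    ← Finset.add_sum_erase (F.erase x) h (Finset.mem_erase.2 ⟨hxy.symm, hy⟩), add_assoc]

omit [DecidableEq ι] in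
theorem alone {F : Finset ι} {l : ι → V} {ε : ι → ℤ} (hε : ∀ x, ε x = 1 ∨ ε x = -1) {v : V}
    (h : ∀ x ∈ F, ∀ y ∈ F, l x = v → l y = v → x = y) :
    |∑ w ∈ F, if l w = v then ε w else 0| ≤ 1 := by
  by_cases k : ∃ x ∈ F, l x = v
  · obtain ⟨x, hx, hv⟩ := k
    rw [Finset.sum_eq_single_of_mem x hx fun y hy hne => if_neg fun e => hne (h y hy x hx e hv),
      if_pos hv]
    rcases hε x with e | e <;> rw [e] <;> norm_num
  · rw [Finset.sum_eq_zero fun y hy => if_neg fun e => k ⟨y, hy, e⟩]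
    norm_num

theorem card_two {F : Finset ι} {x y : ι} (hx : x ∈ F) : ((F.erase x).erase y).card < F.card :=
  Finset.card_erase_le.trans_lt (Finset.card_erase_lt_of_mem hx)

theorem sum_pair {F : Finset ι} {x y : ι} (hx : x ∈ F) (hy : y ∈ F) (hxy : x ≠ y) (l : ι → V)
    (ε : ι → ℤ) (c : ℤ) (v : V) :
    (∑ w ∈ F, if l w = v then (if w = x then -c else if w = y then c else ε w) else 0) =
      (if l x = v then -c else 0) + (if l y = v then c else 0) +
        ∑ w ∈ (F.erase x).erase y, if l w = v then ε w else 0 := by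
  rw [sum_two hx hy hxy, if_pos rfl, if_neg hxy.symm, if_pos rfl]
  refine congrArg _ (Finset.sum_congr rfl fun w hw => ?_)
  rw [Finset.mem_erase, Finset.mem_erase] at hw
  rw [if_neg hw.2.1, if_neg hw.1]

theorem sign_pair {ε : ι → ℤ} (hε : ∀ x, ε x = 1 ∨ ε x = -1) {c : ℤ} (hc : c = 1 ∨ c = -1)
    (x y w : ι) : (if w = x then -c else if w = y then c else ε w) = 1 ∨
      (if w = x then -c else if w = y then c else ε w) = -1 := by
  split_ifs
  · omega
  · exact hc
  · exact hε w

theorem split_sign (r : ι → V) (n : ℕ) : ∀ (F : Finset ι) (l : ι → V), F.card = n →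
    ∃ ε : ι → ℤ, (∀ x, ε x = 1 ∨ ε x = -1) ∧
      (∀ v, |∑ w ∈ F, if l w = v then ε w else 0| ≤ 1) ∧
      ∀ v, |∑ w ∈ F, if r w = v then ε w else 0| ≤ 1 := by
  induction n using Nat.strong_induction_on with
  | _ n ih =>
  intro F l hn
  by_cases hb : ∃ y ∈ F, ∃ x ∈ F, ∃ z ∈ F, x ≠ y ∧ y ≠ z ∧ x ≠ z ∧ l x = l y ∧ r z = r y
  · obtain ⟨y, hy, x, hx, z, hz, xy, yz, xz, e1, e2⟩ := hb
    obtain ⟨ε, h1, h2, h3⟩ := ih _ (hn ▸ card_two (y := z) hy) ((F.erase y).erase z)
      (Function.update l x (l z)) rfl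
    have hx' : x ∈ (F.erase y).erase z := Finset.mem_erase.2 ⟨xz, Finset.mem_erase.2 ⟨xy, hx⟩⟩
    refine ⟨fun w => if w = y then -ε x else if w = z then ε x else ε w,
      sign_pair h1 (h1 x) y z, fun v => ?_, fun v => ?_⟩
    · have k := h2 v
      rw [← Finset.add_sum_erase _ _ hx', Function.update_self,
        Finset.sum_congr rfl fun w hw => by
          rw [Function.update_of_ne (Finset.mem_erase.1 hw).1]] at k
      rw [sum_pair hy hz yz, ← Finset.add_sum_erase _ _ hx', e1]
      refine le_of_eq_of_le (congrArg _ ?_) k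
      split_ifs <;> ring
    · rw [sum_pair hy hz yz, e2]
      refine le_of_eq_of_le (congrArg _ ?_) (h3 v)
      split_ifs <;> ring
  by_cases ha : ∃ x ∈ F, ∃ y ∈ F, x ≠ y ∧ l x = l y
  · obtain ⟨x, hx, y, hy, xy, e1⟩ := ha
    obtain ⟨ε, h1, h2, h3⟩ := ih _ (hn ▸ card_two (y := y) hx) ((F.erase x).erase y) l rfl
    refine ⟨fun w => if w = x then -1 else if w = y then 1 else ε w,
      sign_pair h1 (Or.inl rfl) x y, fun v => ?_, fun v => ?_⟩
    · rw [sum_pair hx hy xy, e1]
      refine le_of_eq_of_le (congrArg _ ?_) (h2 v)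
      split_ifs <;> ring
    · by_cases e2 : r x = r y
      · rw [sum_pair hx hy xy, e2]
        refine le_of_eq_of_le (congrArg _ ?_) (h3 v)
        split_ifs <;> ring
      have ax : ∀ z ∈ F, r z = r x → z = x := fun z hz e => by
        by_contra k
        exact hb ⟨x, hx, y, hy, z, hz, xy.symm, Ne.symm k,
          fun k' => e2 (by rw [k', e]), e1.symm, e⟩
      have ay : ∀ z ∈ F, r z = r y → z = y := fun z hz e => by
        by_contra k
        exact hb ⟨y, hy, x, hx, z, hz, xy, Ne.symm k, fun k' => e2 (by rw [k', e]), e1, e⟩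
      by_cases vx : r x = v
      · exact alone (sign_pair h1 (Or.inl rfl) x y) fun a ha b hb' p q =>
          (ax a ha (p.trans vx.symm)).trans (ax b hb' (q.trans vx.symm)).symm
      by_cases vy : r y = v
      · exact alone (sign_pair h1 (Or.inl rfl) x y) fun a ha b hb' p q =>
          (ay a ha (p.trans vy.symm)).trans (ay b hb' (q.trans vy.symm)).symm
      rw [sum_pair hx hy xy, if_neg vx, if_neg vy, add_zero, zero_add]
      exact h3 v
  have inj : ∀ v, ∀ x ∈ F, ∀ y ∈ F, l x = v → l y = v → x = y := fun v x hx y hy p q => by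
    by_contra k
    exact ha ⟨x, hx, y, hy, k, p.trans q.symm⟩
  by_cases hc : ∃ x ∈ F, ∃ y ∈ F, x ≠ y ∧ r x = r y
  · obtain ⟨x, hx, y, hy, xy, e1⟩ := hc
    obtain ⟨ε, h1, -, h3⟩ := ih _ (hn ▸ card_two (y := y) hx) ((F.erase x).erase y) l rfl
    refine ⟨fun w => if w = x then -1 else if w = y then 1 else ε w,
      sign_pair h1 (Or.inl rfl) x y, fun v => alone (sign_pair h1 (Or.inl rfl) x y) (inj v),
      fun v => ?_⟩
    rw [sum_pair hx hy xy, e1]
    refine le_of_eq_of_le (congrArg _ ?_) (h3 v)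
    split_ifs <;> ring
  · refine ⟨fun _ => 1, fun _ => Or.inl rfl, fun v => alone (fun _ => Or.inl rfl) (inj v),
      fun v => alone (fun _ => Or.inl rfl) fun x hx y hy p q => ?_⟩
    by_contra k
    exact hc ⟨x, hx, y, hy, k, p.trans q.symm⟩

omit [DecidableEq ι] in
theorem count_of_sign {D : Finset ι} {ε : ι → ℤ} (hε : ∀ x, ε x = 1 ∨ ε x = -1)
    (h : |∑ w ∈ D, ε w| ≤ 2) (b : ℕ) :
    2 * (D.filter fun w => (if ε w = 1 then 0 else 1) = b).card ≤ D.card + 2 := by
  have k1 := Finset.card_filter_add_card_filter_not (s := D) fun w => ε w = 1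
  rw [← Finset.sum_filter_add_sum_filter_not D fun w => ε w = 1,
    Finset.sum_congr rfl (g := fun _ => (1 : ℤ)) fun w hw => (Finset.mem_filter.1 hw).2,
    Finset.sum_congr (s₁ := D.filter fun w => ¬ ε w = 1) rfl (g := fun _ => (-1 : ℤ))
      fun w hw => (hε w).resolve_left (Finset.mem_filter.1 hw).2,
    Finset.sum_const, Finset.sum_const, abs_le] at h
  simp only [nsmul_eq_mul] at h
  rcases Nat.lt_trichotomy b 1 with k | k | k
  · have e : (D.filter fun w => (if ε w = 1 then 0 else 1) = b) = D.filter fun w => ε w = 1 :=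
      Finset.filter_congr fun w _ => by split_ifs with p <;> simp [p] <;> omega
    rw [e]
    omega
  · have e : (D.filter fun w => (if ε w = 1 then 0 else 1) = b) = D.filter fun w => ¬ ε w = 1 :=
      Finset.filter_congr fun w _ => by split_ifs with p <;> simp [p] <;> omega
    rw [e]
    omega
  · rw [Finset.filter_eq_empty_iff.2 fun w _ => by split_ifs <;> omega]
    simp

end Pool.Agent.P.MP_90a930_lc.Bp
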