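import Mathlib

/-!
General tools for the poly density: matchings from sets of disjoint edges, existence of the
density, lower bound by two adjacent edges, upper bound by a covering inequality.
-/

namespace Pool.Agent.P.MP_90a930_lc.Dg

open SimpleGraph

variable {V : Type}

/-- the values of the inclusion-maximal matchings -/
def val (G : SimpleGraph V) (f : Sym2 V → ℕ) (z : Sym2 V → ℝ) : Set ℝ :=
  {x : ℝ | ∃ M : G.Subgraph, Maximal SimpleGraph.Subgraph.IsMatching M ∧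
    x = ∑ᶠ e ∈ M.edgeSet, z e * (f e : ℝ)}

/-- the set whose greatest element is the poly density -/
def dset (G : SimpleGraph V) (f : Sym2 V → ℕ) : Set ℝ :=
  {y : ℝ | ∃ z : Sym2 V → ℝ, (∀ e ∈ G.edgeSet, z e ∈ Set.Icc (0 : ℝ) 1) ∧
    ∑ᶠ e ∈ G.edgeSet, z e = 1 ∧ ∃ w : ℝ, IsGreatest (val G f z) w ∧ y = 1 / w}

/-- a feasible schedule exists -/
def Sched (G : SimpleGraph V) (f : Sym2 V → ℕ) : Prop :=
  ∃ S : ℕ → G.Subgraph, (∀ t, (S t).IsMatching) ∧
    ∀ e ∈ G.edgeSet, ∀ t : ℕ, ∃ s : ℕ, t ≤ s ∧ s < t + f e ∧ e ∈ (S s).edgeSet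

/-- pairwise disjoint edges -/
def Ind (F : Set (Sym2 V)) : Prop := ∀ e ∈ F, ∀ e' ∈ F, ∀ v, v ∈ e → v ∈ e' → e = e'

/-- the subgraph spanned by a set of edges -/
def sub (G : SimpleGraph V) (F : Set (Sym2 V)) (hF : F ⊆ G.edgeSet) : G.Subgraph where
  verts := {v | ∃ w, s(v,w) ∈ F}
  Adj u v := s(u,v) ∈ F
  adj_sub h := hF h
  edge_vert h := ⟨_, h⟩
  symm := ⟨fun u v h => by rwa [Sym2.eq_swap]⟩

variable {G : SimpleGraph V} {f : Sym2 V → ℕ}

theorem sub_edgeSet (F : Set (Sym2 V)) (hF : F ⊆ G.edgeSet) : (sub G F hF).edgeSet = F := by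
  ext e
  induction e using Sym2.ind with
  | h u v => exact Iff.rfl

theorem sub_isMatching {F : Set (Sym2 V)} (hF : F ⊆ G.edgeSet) (h : Ind F) :
    (sub G F hF).IsMatching := by
  rintro v ⟨w, hw⟩
  refine ⟨w, hw, fun w' hw' => ?_⟩
  exact Sym2.congr_right.1 (h _ hw' _ hw v (Sym2.mem_mk_left _ _) (Sym2.mem_mk_left _ _))

theorem ind_of_isMatching {M : G.Subgraph} (hM : M.IsMatching) : Ind M.edgeSet := by
  intro e he e' he' v hv hv'
  obtain ⟨w, rfl⟩ := Sym2.mem_iff_exists.1 hv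
  obtain ⟨w', rfl⟩ := Sym2.mem_iff_exists.1 hv'
  have h1 : M.Adj v w := he
  have h2 : M.Adj v w' := he'
  obtain ⟨u, -, hu⟩ := hM (M.edge_vert h1)
  rw [hu w h1, hu w' h2]

theorem sched_of (on : Sym2 V → ℕ → Prop)
    (h1 : ∀ t, Ind {e | e ∈ G.edgeSet ∧ on e t})
    (h2 : ∀ e ∈ G.edgeSet, ∀ t : ℕ, ∃ s : ℕ, t ≤ s ∧ s < t + f e ∧ on e s) : Sched G f := by
  refine ⟨fun t => sub G {e | e ∈ G.edgeSet ∧ on e t} fun _ h => h.1,
    fun t => sub_isMatching _ (h1 t), fun e he t => ?_⟩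
  obtain ⟨s, a, b, c⟩ := h2 e he t
  refine ⟨s, a, b, ?_⟩
  rw [sub_edgeSet]
  exact ⟨he, c⟩

theorem Sched.on (h : Sched G f) : ∃ on : Sym2 V → ℕ → Prop,
    (∀ t e e' v, on e t → on e' t → v ∈ e → v ∈ e' → e = e') ∧
    ∀ e ∈ G.edgeSet, ∀ t : ℕ, ∃ s : ℕ, t ≤ s ∧ s < t + f e ∧ on e s := by
  obtain ⟨S, h1, h2⟩ := h
  exact ⟨fun e t => e ∈ (S t).edgeSet,
    fun t e e' v a b c d => ind_of_isMatching (h1 t) e a e' b v c d, h2⟩

variable [Finite V]

theorem ind_le {z : Sym2 V → ℝ} (hz : ∀ e ∈ G.edgeSet, 0 ≤ z e) {w : ℝ}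
    (hw : w ∈ upperBounds (val G f z)) (F : Finset (Sym2 V)) (hF : (F : Set (Sym2 V)) ⊆ G.edgeSet)
    (h : Ind (F : Set (Sym2 V))) : ∑ e ∈ F, z e * (f e : ℝ) ≤ w := by
  obtain ⟨M, hle, hM⟩ := Finite.exists_le_maximal (sub_isMatching hF h)
  refine le_trans ?_ (hw ⟨M, hM, rfl⟩)
  rw [finsum_mem_eq_finite_toFinset_sum _ (Set.toFinite M.edgeSet)]
  apply Finset.sum_le_sum_of_subset_of_nonneg
  · intro e he
    rw [Set.Finite.mem_toFinset]
    refine Subgraph.edgeSet_mono hle ?_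
    rw [sub_edgeSet]
    exact he
  · intro e he _
    rw [Set.Finite.mem_toFinset] at he
    exact mul_nonneg (hz e (M.edgeSet_subset he)) (Nat.cast_nonneg _)

omit [Finite V] in
theorem ind_single (e : Sym2 V) : Ind (({e} : Finset (Sym2 V)) : Set (Sym2 V)) := by
  intro a ha b hb _ _ _
  rw [Finset.mem_coe, Finset.mem_singleton] at ha hb
  rw [ha, hb]

theorem single_le {z : Sym2 V → ℝ} (hz : ∀ e ∈ G.edgeSet, 0 ≤ z e) {w : ℝ}
    (hw : w ∈ upperBounds (val G f z)) {e : Sym2 V} (he : e ∈ G.edgeSet) :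
    z e * (f e : ℝ) ≤ w := by
  have := ind_le hz hw {e} (by simpa using he) (ind_single e)
  rwa [Finset.sum_singleton] at this

theorem exists_best (G : SimpleGraph V) (f : Sym2 V → ℕ) :
    ∃ W : (Sym2 V → ℝ) → ℝ, Continuous W ∧ ∀ z, IsGreatest (val G f z) (W z) := by
  have hfin : {M : G.Subgraph | Maximal Subgraph.IsMatching M}.Finite := Set.toFinite _
  have hne : hfin.toFinset.Nonempty := by
    obtain ⟨M, -, hM⟩ := Finite.exists_le_maximal (sub_isMatching (G := G) (F := ∅)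
      (Set.empty_subset _) fun _ h => absurd h (Set.notMem_empty _))
    exact ⟨M, hfin.mem_toFinset.2 hM⟩
  refine ⟨fun z => hfin.toFinset.sup' hne fun M => ∑ᶠ e ∈ M.edgeSet, z e * (f e : ℝ), ?_,
    fun z => ⟨?_, ?_⟩⟩
  · refine Continuous.finset_sup'_apply
      (f := fun (M : G.Subgraph) (z : Sym2 V → ℝ) => ∑ᶠ e ∈ M.edgeSet, z e * (f e : ℝ)) hne
      fun M _ => ?_
    simp only [finsum_mem_eq_finite_toFinset_sum _ (Set.toFinite M.edgeSet)]
    fun_prop
  · obtain ⟨M, hM, h⟩ := Finset.exists_mem_eq_sup' hne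
      fun M : G.Subgraph => ∑ᶠ e ∈ M.edgeSet, z e * (f e : ℝ)
    exact ⟨M, hfin.mem_toFinset.1 hM, h⟩
  · rintro x ⟨M, hM, rfl⟩
    exact Finset.le_sup' (fun M : G.Subgraph => ∑ᶠ e ∈ M.edgeSet, z e * (f e : ℝ))
      (hfin.mem_toFinset.2 hM)

theorem best_pos (hf : ∀ e ∈ G.edgeSet, 1 ≤ f e) {z : Sym2 V → ℝ} (hz : ∀ e ∈ G.edgeSet, 0 ≤ z e)
    (hs : ∑ᶠ e ∈ G.edgeSet, z e = 1) {w : ℝ} (hw : w ∈ upperBounds (val G f z)) : 0 < w := by
  by_contra hneg
  rw [finsum_mem_eq_finite_toFinset_sum _ (Set.toFinite G.edgeSet)] at hs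
  have : ∑ e ∈ (Set.toFinite G.edgeSet).toFinset, z e ≤ 0 := by
    refine Finset.sum_nonpos fun e he => ?_
    rw [Set.Finite.mem_toFinset] at he
    have h1 := single_le hz hw he
    have h2 : (1 : ℝ) ≤ f e := by exact_mod_cast hf e he
    have h3 := hz e he
    nlinarith [not_lt.1 hneg]
  linarith

/-- the maximum in the definition of the poly density is attained -/
theorem exists_density (hne : G.edgeSet.Nonempty) (hf : ∀ e ∈ G.edgeSet, 1 ≤ f e) :
    ∃ d, IsGreatest (dset G f) d := by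
  classical
  obtain ⟨W, hW, hb⟩ := exists_best G f
  have hc : IsCompact ((Set.univ.pi fun _ : Sym2 V => Set.Icc (0 : ℝ) 1) ∩
      {z : Sym2 V → ℝ | ∑ᶠ e ∈ G.edgeSet, z e = 1}) := by
    refine (isCompact_univ_pi fun _ => isCompact_Icc).inter_right (isClosed_eq ?_ continuous_const)
    simp only [finsum_mem_eq_finite_toFinset_sum _ (Set.toFinite G.edgeSet)]
    fun_prop
  obtain ⟨e0, he0⟩ := hne
  obtain ⟨z0, hz0, hmin⟩ := hc.exists_isMinOn ⟨fun e => if e = e0 then 1 else 0, by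
    refine ⟨fun e _ => ?_, ?_⟩
    · dsimp only
      split_ifs <;> simp
    · show ∑ᶠ e ∈ G.edgeSet, (if e = e0 then (1 : ℝ) else 0) = 1
      rw [finsum_mem_eq_finite_toFinset_sum _ (Set.toFinite G.edgeSet), Finset.sum_ite_eq',
        if_pos ((Set.Finite.mem_toFinset _).2 he0)]⟩ hW.continuousOn
  have hpos : 0 < W z0 := best_pos hf (fun e _ => (hz0.1 e trivial).1) hz0.2 (hb z0).2
  refine ⟨1 / W z0, ⟨z0, fun e _ => hz0.1 e trivial, hz0.2, W z0, hb z0, rfl⟩, ?_⟩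
  rintro y ⟨z, h1, h2, w, h3, rfl⟩
  have hv : val G f (fun e => if e ∈ G.edgeSet then z e else 0) = val G f z := by
    ext x
    refine exists_congr fun M => and_congr_right fun _ => ?_
    rw [finsum_mem_congr (s := M.edgeSet) (t := M.edgeSet)
      (g := fun e => z e * (f e : ℝ)) rfl fun e he => by
        dsimp only
        rw [if_pos (M.edgeSet_subset he)]]
  have h4 := hb fun e => if e ∈ G.edgeSet then z e else 0
  rw [hv] at h4
  have h5 : W z0 ≤ W fun e => if e ∈ G.edgeSet then z e else 0 := by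
    refine hmin ⟨fun e _ => ?_, ?_⟩
    · dsimp only
      split_ifs with h
      · exact h1 e h
      · simp
    · show ∑ᶠ e ∈ G.edgeSet, (if e ∈ G.edgeSet then z e else 0) = 1
      rw [← h2]
      exact finsum_mem_congr rfl fun e he => if_pos he
  rw [h3.unique h4]
  exact one_div_le_one_div_of_le hpos h5

theorem density_le {c d : ℝ} (hf : ∀ e ∈ G.edgeSet, 1 ≤ f e) (hd : d ∈ dset G f)
    (h : ∀ (z : Sym2 V → ℝ) (w : ℝ), (∀ e ∈ G.edgeSet, 0 ≤ z e) → ∑ᶠ e ∈ G.edgeSet, z e = 1 →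
      0 < w → (∀ F : Finset (Sym2 V), (F : Set (Sym2 V)) ⊆ G.edgeSet → Ind (F : Set (Sym2 V)) →
        ∑ e ∈ F, z e * (f e : ℝ) ≤ w) → 1 ≤ c * w) : d ≤ c := by
  obtain ⟨z, h1, h2, w, h3, rfl⟩ := hd
  have hz : ∀ e ∈ G.edgeSet, 0 ≤ z e := fun e he => (h1 e he).1
  have hw := best_pos hf hz h2 h3.2
  rw [div_le_iff₀ hw]
  exact h z w hz h2 hw (ind_le hz h3.2)

/-- two adjacent edges bound the density from below -/
theorem load_le {d : ℝ} (hf : ∀ e ∈ G.edgeSet, 1 ≤ f e) (hd : d ∈ upperBounds (dset G f))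
    {a b : Sym2 V} (ha : a ∈ G.edgeSet) (hb : b ∈ G.edgeSet) (hab : a ≠ b) {v : V} (hva : v ∈ a)
    (hvb : v ∈ b) : 1 / (f a : ℝ) + 1 / (f b : ℝ) ≤ d := by
  classical
  have pa : (1 : ℝ) ≤ f a := by exact_mod_cast hf a ha
  have pb : (1 : ℝ) ≤ f b := by exact_mod_cast hf b hb
  obtain ⟨W, -, hW⟩ := exists_best G f
  let z : Sym2 V → ℝ := fun e =>
    (if e = a then (f b : ℝ) / (f a + f b) else 0) + if e = b then (f a : ℝ) / (f a + f b) else 0
  have hs : (0 : ℝ) < f a + f b := by linarith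
  have z1 : ∀ e, z e ∈ Set.Icc (0 : ℝ) 1 := by
    intro e
    have k1 : (f b : ℝ) / (f a + f b) ≤ 1 := by rw [div_le_one hs]; linarith
    have k2 : (f a : ℝ) / (f a + f b) ≤ 1 := by rw [div_le_one hs]; linarith
    have k3 : 0 ≤ (f b : ℝ) / (f a + f b) := by positivity
    have k4 : 0 ≤ (f a : ℝ) / (f a + f b) := by positivity
    simp only [z]
    split_ifs with h1 h2 h2
    · exact absurd (h1.symm.trans h2) hab
    · exact ⟨by linarith, by linarith⟩
    · exact ⟨by linarith, by linarith⟩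
    · exact ⟨by linarith, by linarith⟩
  have z2 : ∑ᶠ e ∈ G.edgeSet, z e = 1 := by
    rw [finsum_mem_eq_finite_toFinset_sum _ (Set.toFinite G.edgeSet)]
    simp only [z]
    rw [Finset.sum_add_distrib, Finset.sum_ite_eq', Finset.sum_ite_eq',
      if_pos ((Set.Finite.mem_toFinset _).2 ha), if_pos ((Set.Finite.mem_toFinset _).2 hb)]
    field_simp
    ring
  have hpos := best_pos hf (fun e _ => (z1 e).1) z2 (hW z).2
  have hle : W z ≤ f a * f b / (f a + f b) := by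
    obtain ⟨M, hM, h⟩ := (hW z).1
    have e1 : ∀ e, z e * (f e : ℝ) = (if e = a then (f a * f b : ℝ) / (f a + f b) else 0) +
        if e = b then (f a * f b : ℝ) / (f a + f b) else 0 := by
      intro e
      simp only [z]
      split_ifs with h1 h2 h2
      · exact absurd (h1.symm.trans h2) hab
      · rw [h1]; ring
      · rw [h2]; ring
      · ring
    rw [h, finsum_mem_eq_finite_toFinset_sum _ (Set.toFinite M.edgeSet)]
    simp only [e1]
    rw [Finset.sum_add_distrib, Finset.sum_ite_eq', Finset.sum_ite_eq']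
    have k : (0 : ℝ) ≤ f a * f b / (f a + f b) := by positivity
    split_ifs with h1 h2 h2
    · exact absurd (ind_of_isMatching hM.prop a ((Set.Finite.mem_toFinset _).1 h1) b
        ((Set.Finite.mem_toFinset _).1 h2) v hva hvb) hab
    · linarith
    · linarith
    · linarith
  refine le_trans ?_ (hd ⟨z, fun e _ => z1 e, z2, W z, hW z, rfl⟩)
  refine le_trans (le_of_eq ?_) (one_div_le_one_div_of_le hpos hle)
  field_simp
  ring

end Pool.Agent.P.MP_90a930_lc.Dg
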