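import Pool.Agent.P.MP_90a930_lc.DgFive

/-!
An odd cycle with one chord, maximum degree three: no schedule, poly density tending to 3/4.
-/

namespace Pool.Agent.P.MP_90a930_lc.Dg

open SimpleGraph

/-- the vertex with number `i`, wrapping to `0` -/
def vx (m i : ℕ) : Fin (2 * m + 5) :=
  ⟨if i ≤ 2 * m + 4 then i else 0, by split_ifs <;> omega⟩

/-- the cycle edges -/
def ed (m i : ℕ) : Sym2 (Fin (2 * m + 5)) := s(vx m i, vx m (i + 1))

/-- the chord -/
def ch (m : ℕ) : Sym2 (Fin (2 * m + 5)) := s(vx m 0, vx m 2)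

/-- the oriented adjacency -/
def Rl (m a b : ℕ) : Prop := b = a + 1 ∨ (a = 0 ∧ b = 2 * m + 4) ∨ (a = 0 ∧ b = 2)

/-- the cycle with the chord -/
def GF (m : ℕ) : SimpleGraph (Fin (2 * m + 5)) where
  Adj u v := Rl m u.1 v.1 ∨ Rl m v.1 u.1
  symm := ⟨fun _ _ h => h.symm⟩
  loopless := ⟨fun u h => by unfold Rl at h; omega⟩

/-- the frequency from the two end numbers -/
def fn (N a b : ℕ) : ℕ := if a = 0 ∧ b = 2 then N else if a % 2 = 1 then 2 else 4

/-- the frequencies -/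
def fF (m N : ℕ) : Sym2 (Fin (2 * m + 5)) → ℕ :=
  Sym2.lift ⟨fun a b => fn N (min a.1 b.1) (max a.1 b.1), fun a b => by
    change fn N (min a.1 b.1) (max a.1 b.1) = fn N (min b.1 a.1) (max b.1 a.1)
    rw [min_comm, max_comm]⟩

variable {m N : ℕ}

theorem vx_le {i : ℕ} (h : i ≤ 2 * m + 4) : (vx m i).1 = i := if_pos h

theorem vx_top : (vx m (2 * m + 4 + 1)).1 = 0 := if_neg (by omega)

theorem eq_vx {u : Fin (2 * m + 5)} {i : ℕ} (h : u.1 = i) : u = vx m i := by
  have := u.2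
  exact Fin.ext (by rw [vx_le (by omega)]; exact h)

theorem mem_ed {i : ℕ} (hi : i ≤ 2 * m + 4) (v : Fin (2 * m + 5)) :
    v ∈ ed m i ↔ v.1 = i ∨ (i < 2 * m + 4 ∧ v.1 = i + 1) ∨ (i = 2 * m + 4 ∧ v.1 = 0) := by
  rw [ed, Sym2.mem_iff, Fin.ext_iff, Fin.ext_iff, vx_le hi]
  rcases hi.lt_or_eq with k | k
  · rw [vx_le (by omega)]
    omega
  · subst k
    rw [vx_top]
    omega

theorem mem_ch (v : Fin (2 * m + 5)) : v ∈ ch m ↔ v.1 = 0 ∨ v.1 = 2 := by
  rw [ch, Sym2.mem_iff, Fin.ext_iff, Fin.ext_iff, vx_le (by omega), vx_le (by omega)]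

theorem ed_inj {i j : ℕ} (hi : i ≤ 2 * m + 4) (hj : j ≤ 2 * m + 4) (h : ed m i = ed m j) :
    i = j := by
  have a1 : vx m i ∈ ed m j := h ▸ (mem_ed hi _).2 (Or.inl (vx_le hi))
  have a2 : vx m j ∈ ed m i := h.symm ▸ (mem_ed hj _).2 (Or.inl (vx_le hj))
  rw [mem_ed hj, vx_le hi] at a1
  rw [mem_ed hi, vx_le hj] at a2
  omega

theorem ch_ne {i : ℕ} (hi : i ≤ 2 * m + 4) : ch m ≠ ed m i := by
  intro h
  have a1 : vx m 0 ∈ ed m i := h ▸ (mem_ch _).2 (Or.inl (vx_le (by omega)))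
  have a2 : vx m 2 ∈ ed m i := h ▸ (mem_ch _).2 (Or.inr (vx_le (by omega)))
  rw [mem_ed hi, vx_le (by omega)] at a1 a2
  omega

theorem ed_mem {i : ℕ} (hi : i ≤ 2 * m + 4) : ed m i ∈ (GF m).edgeSet := by
  change Rl m (vx m i).1 (vx m (i + 1)).1 ∨ Rl m (vx m (i + 1)).1 (vx m i).1
  rw [vx_le hi]
  rcases hi.lt_or_eq with k | k
  · rw [vx_le (by omega)]
    exact Or.inl (Or.inl rfl)
  · subst k
    rw [vx_top]
    exact Or.inr (Or.inr (Or.inl ⟨rfl, rfl⟩))

theorem ch_mem : ch m ∈ (GF m).edgeSet := by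
  change Rl m (vx m 0).1 (vx m 2).1 ∨ Rl m (vx m 2).1 (vx m 0).1
  rw [vx_le (by omega), vx_le (by omega)]
  exact Or.inl (Or.inr (Or.inr ⟨rfl, rfl⟩))

theorem of_Rl {u v : Fin (2 * m + 5)} (h : Rl m u.1 v.1) :
    s(u,v) = ch m ∨ ∃ i, i < 2 * m + 5 ∧ ed m i = s(u,v) := by
  rcases h with h | ⟨h1, h2⟩ | ⟨h1, h2⟩
  · exact Or.inr ⟨u.1, u.2, by rw [ed, ← eq_vx h, ← eq_vx (rfl : u.1 = u.1)]⟩
  · refine Or.inr ⟨2 * m + 4, by omega, ?_⟩
    have k : u = vx m (2 * m + 4 + 1) := Fin.ext (by rw [vx_top]; exact h1)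
    rw [ed, ← eq_vx h2, ← k, Sym2.eq_swap]
  · exact Or.inl (by rw [ch, ← eq_vx h1, ← eq_vx h2])

theorem GF_edgeSet : (GF m).edgeSet =
    ((insert (ch m) ((Finset.range (2 * m + 5)).image (ed m)) : Finset _) : Set _) := by
  ext e
  simp only [Finset.coe_insert, Finset.coe_image, Finset.coe_range, Set.mem_insert_iff,
    Set.mem_image, Set.mem_Iio]
  constructor
  · induction e using Sym2.ind with
    | h u v =>
      intro h
      rcases (h : Rl m u.1 v.1 ∨ Rl m v.1 u.1) with h | h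
      · exact of_Rl h
      · rw [Sym2.eq_swap]
        exact of_Rl h
  · rintro (rfl | ⟨i, hi, rfl⟩)
    · exact ch_mem
    · exact ed_mem (by omega)

theorem GF_deg (v : Fin (2 * m + 5)) : ((GF m).neighborSet v).ncard ≤ 3 := by
  have h : (GF m).neighborSet v ⊆ {vx m (if v.1 = 2 * m + 4 then 0 else v.1 + 1),
      vx m (if v.1 = 0 then 2 * m + 4 else v.1 - 1), vx m (if v.1 = 0 then 2 else 0)} := by
    intro u hu
    have hu2 := u.2
    rcases (hu : Rl m v.1 u.1 ∨ Rl m u.1 v.1) with (h | h | h) | (h | h | h)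
    · exact Or.inl (eq_vx (by rw [if_neg (by omega)]; exact h))
    · exact Or.inr (Or.inl (eq_vx (by rw [if_pos h.1]; exact h.2)))
    · exact Or.inr (Or.inr (eq_vx (by rw [if_pos h.1]; exact h.2)))
    · exact Or.inr (Or.inl (eq_vx (by rw [if_neg (by omega)]; omega)))
    · exact Or.inl (eq_vx (by rw [if_pos h.2]; exact h.1))
    · exact Or.inr (Or.inr (eq_vx (by rw [if_neg (by omega)]; exact h.1)))
  refine (Set.ncard_le_ncard h (Set.toFinite _)).trans ?_
  refine (Set.ncard_insert_le _ _).trans ?_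
  have k := Set.ncard_insert_le (vx m (if v.1 = 0 then 2 * m + 4 else v.1 - 1))
    ({vx m (if v.1 = 0 then 2 else 0)} : Set (Fin (2 * m + 5)))
  rw [Set.ncard_singleton] at k
  omega

theorem f_ch : fF m N (ch m) = N := by
  change fn N (min (vx m 0).1 (vx m 2).1) (max (vx m 0).1 (vx m 2).1) = N
  rw [vx_le (by omega), vx_le (by omega)]
  exact if_pos ⟨rfl, rfl⟩

theorem f_ed {i : ℕ} (hi : i ≤ 2 * m + 4) : fF m N (ed m i) = if i % 2 = 1 then 2 else 4 := by
  change fn N (min (vx m i).1 (vx m (i + 1)).1) (max (vx m i).1 (vx m (i + 1)).1) = _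
  rw [vx_le hi]
  rcases hi.lt_or_eq with k | k
  · rw [vx_le (by omega), min_eq_left (Nat.le_succ i), max_eq_right (Nat.le_succ i), fn,
      if_neg (by omega)]
  · subst k
    rw [vx_top, min_eq_right (Nat.zero_le _), max_eq_left (Nat.zero_le _), fn,
      if_neg (by omega), if_neg (by omega), if_neg (by omega)]

theorem fF_pos (hN : 1 ≤ N) : ∀ e ∈ (GF m).edgeSet, 1 ≤ fF m N e := by
  intro e he
  rw [GF_edgeSet] at he
  simp only [Finset.coe_insert, Finset.coe_image, Finset.coe_range, Set.mem_insert_iff,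
    Set.mem_image, Set.mem_Iio] at he
  rcases he with rfl | ⟨i, hi, rfl⟩
  · rw [f_ch]; exact hN
  · rw [f_ed (by omega)]
    split_ifs <;> omega

theorem GF_not : ¬ Sched (GF m) (fF m N) := by
  intro h
  obtain ⟨on, h1, h2⟩ := h.on
  have wo : ∀ i, i ≤ 2 * m + 4 → i % 2 = 1 → ∀ s, on (ed m i) s ∨ on (ed m i) (s + 1) := by
    intro i hi ho
    have k := h2 _ (ed_mem hi)
    rw [f_ed hi, if_pos ho] at k
    exact two_on k
  have we : ∀ i, i ≤ 2 * m + 4 → i % 2 = 0 → ∀ s, on (ed m i) s ∨ on (ed m i) (s + 1) ∨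
      on (ed m i) (s + 2) ∨ on (ed m i) (s + 3) := by
    intro i hi ho
    have k := h2 _ (ed_mem hi)
    rw [f_ed hi, if_neg (by omega)] at k
    exact four_on k
  have adj : ∀ i, i < 2 * m + 4 → ∀ t, on (ed m i) t → on (ed m (i + 1)) t → False := by
    intro i hi t a b
    have k := h1 t _ _ (vx m (i + 1)) a b
      ((mem_ed hi.le _).2 (Or.inr (Or.inl ⟨hi, vx_le hi⟩))) ((mem_ed hi _).2 (Or.inl (vx_le hi)))
    have := ed_inj hi.le hi k
    omega
  have v0 : (vx m 0).1 = 0 := vx_le (by omega)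
  have m0 : vx m 0 ∈ ed m 0 := (mem_ed (by omega) _).2 (Or.inl v0)
  have mK : vx m 0 ∈ ed m (2 * m + 4) := (mem_ed le_rfl _).2 (Or.inr (Or.inr ⟨rfl, v0⟩))
  have mc : vx m 0 ∈ ch m := (mem_ch _).2 (Or.inl v0)
  obtain ⟨s, s1, -, hq⟩ := h2 _ ch_mem 2
  obtain ⟨u, rfl⟩ : ∃ u, s = u + 2 := ⟨s - 2, by omega⟩
  have q1 : ¬ on (ed m 1) (u + 2) := fun a =>
    ch_ne (by omega) (h1 _ _ _ (vx m 2) hq a ((mem_ch _).2 (Or.inr (vx_le (by omega))))
      ((mem_ed (by omega) _).2 (Or.inr (Or.inl ⟨by omega, vx_le (by omega)⟩))))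
  have q0 : ¬ on (ed m 0) (u + 2) := fun a => ch_ne (by omega) (h1 _ _ _ _ hq a mc m0)
  have qK : ¬ on (ed m (2 * m + 4)) (u + 2) := fun a => ch_ne le_rfl (h1 _ _ _ _ hq a mc mK)
  have ind : ∀ j, j ≤ m + 1 → on (ed m (2 * j + 1)) (u + 1) ∧ on (ed m (2 * j + 1)) (u + 3) := by
    intro j
    induction j with
    | zero =>
      exact fun _ => ⟨(wo 1 (by omega) rfl (u + 1)).resolve_right q1,
        (wo 1 (by omega) rfl (u + 2)).resolve_left q1⟩
    | succ j ih =>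
      intro hj
      obtain ⟨i1, i3⟩ := ih (by omega)
      have y1 := adj (2 * j + 1) (by omega) _ i1
      have y3 := adj (2 * j + 1) (by omega) _ i3
      have x := wo (2 * j + 1 + 1 + 1) (by omega) (by omega)
      have y := we (2 * j + 1 + 1) (by omega) (by omega)
      have c := adj (2 * j + 1 + 1) (by omega)
      change on (ed m (2 * j + 1 + 1 + 1)) (u + 1) ∧ on (ed m (2 * j + 1 + 1 + 1)) (u + 3)
      by_cases y2 : on (ed m (2 * j + 1 + 1)) (u + 2)
      · exact ⟨(x (u + 1)).resolve_right (c _ y2), (x (u + 2)).resolve_left (c _ y2)⟩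
      · have y0 : on (ed m (2 * j + 1 + 1)) u :=
          (y u).resolve_right fun k => k.elim y1 fun k => k.elim y2 y3
        have y4 : on (ed m (2 * j + 1 + 1)) (u + 4) :=
          (((y (u + 1)).resolve_left y1).resolve_left y2).resolve_left y3
        exact ⟨(x u).resolve_left (c _ y0), (x (u + 3)).resolve_right (c _ y4)⟩
  obtain ⟨a1, a3⟩ := ind 0 (by omega)
  obtain ⟨b1, b3⟩ := ind (m + 1) le_rfl
  have e0 : on (ed m 0) (u + 4) :=
    (((we 0 (by omega) rfl (u + 1)).resolve_left fun k => adj 0 (by omega) _ k a1).resolve_left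
      q0).resolve_left fun k => adj 0 (by omega) _ k a3
  have eK : on (ed m (2 * m + 4)) (u + 4) :=
    (((we (2 * m + 4) le_rfl (by omega) (u + 1)).resolve_left
      (adj (2 * (m + 1) + 1) (by omega) _ b1)).resolve_left qK).resolve_left
      (adj (2 * (m + 1) + 1) (by omega) _ b3)
  have := ed_inj (by omega) le_rfl (h1 _ _ _ _ e0 eK m0 mK)
  omega

theorem sum_odd (g : ℕ → ℝ) (k : ℕ) :
    ∑ i ∈ Finset.range (2 * k + 1), (if i % 2 = 1 then g i else 0) =
      ∑ j ∈ Finset.range k, g (2 * j + 1) := by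
  induction k with
  | zero => simp
  | succ k ih =>
    change ∑ i ∈ Finset.range (2 * k + 1 + 1 + 1), (if i % 2 = 1 then g i else 0) = _
    rw [Finset.sum_range_succ, Finset.sum_range_succ, ih, Finset.sum_range_succ,
      if_pos (by omega), if_neg (by omega), add_zero]

theorem cyc_le {g : Sym2 (Fin (2 * m + 5)) → ℝ} {w : ℝ}
    (h : ∀ F : Finset (Sym2 (Fin (2 * m + 5))),
      (F : Set (Sym2 (Fin (2 * m + 5)))) ⊆ (GF m).edgeSet →
      Ind (F : Set (Sym2 (Fin (2 * m + 5)))) → ∑ e ∈ F, g e ≤ w)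
    (P : ℕ → Prop) [DecidablePred P] (h1 : ∀ i, P i → ¬ P (i + 1))
    (h2 : P 0 → ¬ P (2 * m + 4)) :
    ∑ i ∈ Finset.range (2 * m + 5), (if P i then g (ed m i) else 0) ≤ w := by
  have mem : ∀ i, i ∈ (Finset.range (2 * m + 5)).filter P → i ≤ 2 * m + 4 ∧ P i := by
    intro i hi
    rw [Finset.mem_filter, Finset.mem_range] at hi
    exact ⟨by omega, hi.2⟩
  rw [← Finset.sum_filter, ← Finset.sum_image
    (fun i hi j hj e => ed_inj (mem i hi).1 (mem j hj).1 e)]
  refine h _ ?_ ?_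
  · intro e he
    obtain ⟨i, hi, rfl⟩ := Finset.mem_image.1 (Finset.mem_coe.1 he)
    exact ed_mem (mem i hi).1
  · intro e he e' he' v hv hv'
    obtain ⟨i, hi, rfl⟩ := Finset.mem_image.1 (Finset.mem_coe.1 he)
    obtain ⟨j, hj, rfl⟩ := Finset.mem_image.1 (Finset.mem_coe.1 he')
    obtain ⟨i1, i2⟩ := mem i hi
    obtain ⟨j1, j2⟩ := mem j hj
    rw [mem_ed i1] at hv
    rw [mem_ed j1] at hv'
    have k : i = j ∨ j = i + 1 ∨ i = j + 1 ∨ (i = 0 ∧ j = 2 * m + 4) ∨
        (j = 0 ∧ i = 2 * m + 4) := by omega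
    rcases k with k | k | k | ⟨k, k'⟩ | ⟨k, k'⟩
    · rw [k]
    · exact absurd (k ▸ j2) (h1 i i2)
    · exact absurd (k ▸ i2) (h1 j j2)
    · exact absurd (k' ▸ j2) (h2 (k ▸ i2))
    · exact absurd (k' ▸ i2) (h2 (k ▸ j2))

theorem GF_density {c d : ℝ} (hc : 2 ≤ (c - 3 / 4) * ((m : ℝ) + 2))
    (hd : d ∈ dset (GF m) (fF m (m + 2))) : d ≤ c := by
  refine density_le (fF_pos (by omega)) hd fun z w hz hs hw h => ?_
  have hn : ch m ∉ (Finset.range (2 * m + 5)).image (ed m) := by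
    intro k
    obtain ⟨i, hi, e⟩ := Finset.mem_image.1 k
    rw [Finset.mem_range] at hi
    exact ch_ne (by omega) e.symm
  rw [GF_edgeSet, finsum_mem_coe_finset, Finset.sum_insert hn, Finset.sum_image
    (fun i hi j hj e => ed_inj (Nat.le_of_lt_succ (Finset.mem_range.1 (Finset.mem_coe.1 hi)))
      (Nat.le_of_lt_succ (Finset.mem_range.1 (Finset.mem_coe.1 hj))) e)] at hs
  obtain ⟨g, hg⟩ : ∃ g : ℕ → ℝ, ∀ i, g i = z (ed m i) * (fF m (m + 2) (ed m i) : ℝ) :=
    ⟨_, fun _ => rfl⟩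
  have cyc : ∀ (P : ℕ → Prop) [DecidablePred P], (∀ i, P i → ¬ P (i + 1)) →
      (P 0 → ¬ P (2 * m + 4)) →
      ∑ i ∈ Finset.range (2 * m + 5), (if P i then g i else 0) ≤ w := by
    intro P _ h1 h2
    simp only [hg]
    exact cyc_le (g := fun e => z e * (fF m (m + 2) e : ℝ)) h P h1 h2
  have hq : z (ch m) * ((m : ℝ) + 2) ≤ w := by
    have k := h {ch m} (by simpa using ch_mem) (ind_single _)
    rw [Finset.sum_singleton, f_ch] at k
    exact_mod_cast k
  have hO := cyc (fun i => i % 2 = 1) (fun i a b => by omega) (fun a => by omega)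
  have hT : ∀ j ∈ Finset.range (m + 2),
      ∑ i ∈ Finset.range (2 * m + 5), g i - g (2 * j + 1) ≤ 2 * w := by
    intro j hj
    rw [Finset.mem_range] at hj
    have a1 := cyc (fun i => (2 * j + 1 < i ∧ i % 2 = 0) ∨ (i < 2 * j + 1 ∧ i % 2 = 1))
      (fun i a b => by omega) (fun a => by omega)
    have a2 := cyc (fun i => (2 * j + 1 < i ∧ i % 2 = 1) ∨ (i < 2 * j + 1 ∧ i % 2 = 0))
      (fun i a b => by omega) (fun a b => by omega)
    have a3 : ∑ i ∈ Finset.range (2 * m + 5), (if i = 2 * j + 1 then g i else 0) =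
        g (2 * j + 1) := by
      rw [Finset.sum_ite_eq', if_pos (Finset.mem_range.2 (by omega))]
    have a4 : ∑ i ∈ Finset.range (2 * m + 5), g i =
        ∑ i ∈ Finset.range (2 * m + 5),
          (((if (2 * j + 1 < i ∧ i % 2 = 0) ∨ (i < 2 * j + 1 ∧ i % 2 = 1) then g i else 0) +
          (if (2 * j + 1 < i ∧ i % 2 = 1) ∨ (i < 2 * j + 1 ∧ i % 2 = 0) then g i else 0)) +
          if i = 2 * j + 1 then g i else 0) := by
      refine Finset.sum_congr rfl fun i _ => ?_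
      split_ifs with k1 k2 k3 k4 k5 k6 k7
      all_goals first | (exfalso; omega) | simp
    rw [Finset.sum_add_distrib, Finset.sum_add_distrib, a3] at a4
    linarith
  have hS := Finset.sum_le_sum hT
  have so : ∑ i ∈ Finset.range (2 * m + 5), (if i % 2 = 1 then g i else 0) =
      ∑ j ∈ Finset.range (m + 2), g (2 * j + 1) := sum_odd g (m + 2)
  rw [Finset.sum_sub_distrib, Finset.sum_const, Finset.sum_const, Finset.card_range, ← so,
    nsmul_eq_mul, nsmul_eq_mul] at hS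
  have hZ : ∑ i ∈ Finset.range (2 * m + 5), z (ed m i) =
      ∑ i ∈ Finset.range (2 * m + 5), (g i + if i % 2 = 1 then g i else 0) / 4 := by
    refine Finset.sum_congr rfl fun i hi => ?_
    rw [Finset.mem_range] at hi
    rw [hg, f_ed (by omega)]
    split_ifs
    · push_cast; ring
    · push_cast; ring
  rw [hZ, ← Finset.sum_div, Finset.sum_add_distrib] at hs
  generalize ∑ i ∈ Finset.range (2 * m + 5), g i = T at hs hS
  generalize ∑ i ∈ Finset.range (2 * m + 5), (if i % 2 = 1 then g i else 0) = O at hs hS hO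
  push_cast at hS
  have kp : (0 : ℝ) < (m : ℝ) + 2 := by positivity
  generalize (m : ℝ) + 2 = k at hS hq hc kp
  refine le_of_mul_le_mul_left ?_ kp
  have e1 : k * 1 = z (ch m) * k + (k * T + k * O) / 4 := by rw [← hs]; ring
  have e2 : k * O ≤ k * w := mul_le_mul_of_nonneg_left hO kp.le
  have e3 : 2 * w ≤ (c - 3 / 4) * k * w := mul_le_mul_of_nonneg_right hc hw.le
  nlinarith

end Pool.Agent.P.MP_90a930_lc.Dg
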