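import Pool.Agent.P.MP_90a930_lc.DgBase

/-!
The five-cycle with frequencies 2, 4, 2, 3, 12: poly density at most 5/6, no schedule.
-/

namespace Pool.Agent.P.MP_90a930_lc.Dg

open SimpleGraph

theorem two_on {on : ℕ → Prop} (h : ∀ t, ∃ s, t ≤ s ∧ s < t + 2 ∧ on s) (s : ℕ) :
    on s ∨ on (s + 1) := by
  obtain ⟨a, a1, a2, a3⟩ := h s
  have k : a = s ∨ a = s + 1 := by omega
  rcases k with rfl | rfl
  · exact Or.inl a3
  · exact Or.inr a3

theorem three_on {on : ℕ → Prop} (h : ∀ t, ∃ s, t ≤ s ∧ s < t + 3 ∧ on s) (s : ℕ) :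
    on s ∨ on (s + 1) ∨ on (s + 2) := by
  obtain ⟨a, a1, a2, a3⟩ := h s
  have k : a = s ∨ a = s + 1 ∨ a = s + 2 := by omega
  rcases k with rfl | rfl | rfl
  · exact Or.inl a3
  · exact Or.inr (Or.inl a3)
  · exact Or.inr (Or.inr a3)

theorem four_on {on : ℕ → Prop} (h : ∀ t, ∃ s, t ≤ s ∧ s < t + 4 ∧ on s) (s : ℕ) :
    on s ∨ on (s + 1) ∨ on (s + 2) ∨ on (s + 3) := by
  obtain ⟨a, a1, a2, a3⟩ := h s
  have k : a = s ∨ a = s + 1 ∨ a = s + 2 ∨ a = s + 3 := by omega
  rcases k with rfl | rfl | rfl | rfl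
  · exact Or.inl a3
  · exact Or.inr (Or.inl a3)
  · exact Or.inr (Or.inr (Or.inl a3))
  · exact Or.inr (Or.inr (Or.inr a3))

/-- the edges of the five-cycle -/
def E5 : Finset (Sym2 (Fin 5)) := {s(0,1), s(1,2), s(2,3), s(3,4), s(4,0)}

/-- the five-cycle -/
def G5 : SimpleGraph (Fin 5) where
  Adj u v := s(u,v) ∈ E5
  symm := ⟨fun u v h => by rwa [Sym2.eq_swap]⟩
  loopless := ⟨by decide⟩

/-- the frequencies on the five-cycle -/
def f5 (e : Sym2 (Fin 5)) : ℕ :=
  if e = s(0,1) ∨ e = s(2,3) then 2 else if e = s(1,2) then 4 else if e = s(3,4) then 3 else 12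

theorem G5_edgeSet : G5.edgeSet = (E5 : Set (Sym2 (Fin 5))) := by
  ext e
  induction e using Sym2.ind with
  | h u v => simp [G5]

theorem G5_mem {e : Sym2 (Fin 5)} (h : e ∈ E5) : e ∈ G5.edgeSet := by
  rw [G5_edgeSet]; exact h

theorem G5_deg (v : Fin 5) : (G5.neighborSet v).ncard ≤ 2 := by
  have h : G5.neighborSet v ⊆ {v + 1, v + 4} := by
    intro u hu
    have hu' : s(v,u) ∈ E5 := hu
    have k : ∀ a b : Fin 5, s(a,b) ∈ E5 → b = a + 1 ∨ b = a + 4 := by decide
    exact k v u hu'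
  refine (Set.ncard_le_ncard h (Set.toFinite _)).trans ?_
  refine (Set.ncard_insert_le _ _).trans ?_
  rw [Set.ncard_singleton]

theorem f5_pos (e : Sym2 (Fin 5)) : 1 ≤ f5 e := by
  unfold f5
  split_ifs <;> omega

theorem pair5 {g : Sym2 (Fin 5) → ℝ} {w : ℝ}
    (h : ∀ F : Finset (Sym2 (Fin 5)), (F : Set (Sym2 (Fin 5))) ⊆ G5.edgeSet →
      Ind (F : Set (Sym2 (Fin 5))) → ∑ e ∈ F, g e ≤ w)
    (a b : Sym2 (Fin 5)) (k : a ∈ E5 ∧ b ∈ E5 ∧ a ≠ b ∧ ∀ v, v ∈ a → v ∉ b) : g a + g b ≤ w := by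
  obtain ⟨ha, hb, hab, hv⟩ := k
  have k := h {a, b} ?_ ?_
  · rwa [Finset.sum_pair hab] at k
  · intro e he
    simp only [Finset.coe_insert, Finset.coe_singleton, Set.mem_insert_iff,
      Set.mem_singleton_iff] at he
    rcases he with rfl | rfl
    · exact G5_mem ha
    · exact G5_mem hb
  · intro e he e' he' v h1 h2
    simp only [Finset.coe_insert, Finset.coe_singleton, Set.mem_insert_iff,
      Set.mem_singleton_iff] at he he'
    rcases he with rfl | rfl <;> rcases he' with rfl | rfl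
    · rfl
    · exact absurd h2 (hv v h1)
    · exact absurd h1 (hv v h2)
    · rfl

theorem G5_density {d : ℝ} (hd : d ∈ dset G5 f5) : d ≤ 5 / 6 := by
  refine density_le (fun e _ => f5_pos e) hd fun z w _ hs _ h => ?_
  rw [G5_edgeSet, finsum_mem_coe_finset, E5, Finset.sum_insert (by decide),
    Finset.sum_insert (by decide), Finset.sum_insert (by decide), Finset.sum_insert (by decide),
    Finset.sum_singleton] at hs
  have l1 := pair5 h s(0,1) s(2,3) (by decide)
  have l2 := pair5 h s(2,3) s(4,0) (by decide)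
  have l3 := pair5 h s(0,1) s(3,4) (by decide)
  have l4 := pair5 h s(1,2) s(3,4) (by decide)
  have f01 : f5 s(0,1) = 2 := by decide
  have f12 : f5 s(1,2) = 4 := by decide
  have f23 : f5 s(2,3) = 2 := by decide
  have f34 : f5 s(3,4) = 3 := by decide
  have f40 : f5 s(4,0) = 12 := by decide
  simp only [f01, f12, f23, f34, f40] at l1 l2 l3 l4
  push_cast at l1 l2 l3 l4
  linarith

theorem G5_not : ¬ Sched G5 f5 := by
  intro h
  obtain ⟨on, h1, h2⟩ := h.on
  have w1 := two_on (on := on s(0,1)) (h2 s(0,1) (G5_mem (by decide)))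
  have w2 := two_on (on := on s(2,3)) (h2 s(2,3) (G5_mem (by decide)))
  have wa := four_on (on := on s(1,2)) (h2 s(1,2) (G5_mem (by decide)))
  have wp := three_on (on := on s(3,4)) (h2 s(3,4) (G5_mem (by decide)))
  obtain ⟨s, s1, -, hq⟩ := h2 s(4,0) (G5_mem (by decide)) 2
  obtain ⟨u, rfl⟩ : ∃ u, s = u + 2 := ⟨s - 2, by omega⟩
  have c1 : ∀ t, on s(0,1) t → on s(1,2) t → False := fun t a b =>
    absurd (h1 t _ _ 1 a b (by decide) (by decide)) (by decide)
  have c2 : ∀ t, on s(2,3) t → on s(1,2) t → False := fun t a b =>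
    absurd (h1 t _ _ 2 a b (by decide) (by decide)) (by decide)
  have c3 : ∀ t, on s(3,4) t → on s(2,3) t → False := fun t a b =>
    absurd (h1 t _ _ 3 a b (by decide) (by decide)) (by decide)
  have c4 : ∀ t, on s(4,0) t → on s(3,4) t → False := fun t a b =>
    absurd (h1 t _ _ 4 a b (by decide) (by decide)) (by decide)
  have c5 : ∀ t, on s(4,0) t → on s(0,1) t → False := fun t a b =>
    absurd (h1 t _ _ 0 a b (by decide) (by decide)) (by decide)
  have a1 : on s(0,1) (u + 1) := (w1 (u + 1)).resolve_right (c5 _ hq)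
  have a3 : on s(0,1) (u + 3) := (w1 (u + 2)).resolve_left (c5 _ hq)
  rcases wp (u + 1) with p | p | p
  · have b0 : on s(2,3) u := (w2 u).resolve_right (c3 _ p)
    have b2 : on s(2,3) (u + 2) := (w2 (u + 1)).resolve_left (c3 _ p)
    rcases wa u with k | k | k | k
    · exact c2 _ b0 k
    · exact c1 _ a1 k
    · exact c2 _ b2 k
    · exact c1 _ a3 k
  · exact c4 _ hq p
  · have b2 : on s(2,3) (u + 2) := (w2 (u + 2)).resolve_right (c3 _ p)
    have b4 : on s(2,3) (u + 4) := (w2 (u + 3)).resolve_left (c3 _ p)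
    rcases wa (u + 1) with k | k | k | k
    · exact c1 _ a1 k
    · exact c2 _ b2 k
    · exact c1 _ a3 k
    · exact c2 _ b4 k

end Pool.Agent.P.MP_90a930_lc.Dg
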