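import Pool.Agent.P.MP_90a930_lc.DgPos
import Pool.Agent.P.MP_90a930_lc.DgFam

/-!
The degree bounds and constants for which small poly density forces a schedule.
-/

namespace Pool.Agent.P.MP_90a930_lc.Dg

theorem G5_ne : G5.edgeSet.Nonempty := ⟨s(0,1), G5_mem (by decide)⟩

theorem five_cycle : ∃ d : ℝ, IsGreatest (dset G5 f5) d ∧ d ≤ 5 / 6 ∧ ¬ Sched G5 f5 := by
  obtain ⟨d, hd⟩ := exists_density G5_ne fun e _ => f5_pos e
  exact ⟨d, hd, G5_density hd.1, G5_not⟩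

theorem main (D : ℕ) (c : ℝ) (hc : D ≤ 2 ∨ 3 / 4 < c) :
    (∀ (n : ℕ) (G : SimpleGraph (Fin n)) (f : Sym2 (Fin n) → ℕ) (d : ℝ),
      (∀ v, (G.neighborSet v).ncard ≤ D) → G.edgeSet.Nonempty → (∀ e ∈ G.edgeSet, 1 ≤ f e) →
      IsGreatest (dset G f) d → d ≤ c → Sched G f) ↔ (D ≤ 1 ∨ (D = 2 ∧ c < 5 / 6)) := by
  constructor
  · intro h
    by_contra hn
    have hD : 2 ≤ D := by
      by_contra k
      exact hn (Or.inl (by omega))
    rcases hD.eq_or_lt with k | k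
    · have h5 : 5 / 6 ≤ c := not_lt.1 fun k' => hn (Or.inr ⟨k.symm, k'⟩)
      obtain ⟨d, d1, d2, d3⟩ := five_cycle
      exact d3 (h 5 G5 f5 d (fun v => (G5_deg v).trans hD) G5_ne (fun e _ => f5_pos e) d1
        (d2.trans h5))
    · have h3 : 0 < c - 3 / 4 := sub_pos.2 (hc.resolve_left (by omega))
      obtain ⟨m, hm⟩ := exists_nat_ge (2 / (c - 3 / 4))
      rw [div_le_iff₀ h3] at hm
      have hp := fF_pos (m := m) (N := m + 2) (by omega)
      obtain ⟨d, hd⟩ := exists_density ⟨_, ch_mem⟩ hp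
      exact GF_not (h _ (GF m) (fF m (m + 2)) d (fun v => (GF_deg v).trans k) ⟨_, ch_mem⟩ hp hd
        (GF_density (by nlinarith) hd.1))
  · rintro (h | ⟨rfl, h⟩) n G f d hD _ hf hd hdc
    · exact sched_one (fun v => (hD v).trans h) hf
    · exact sched_two hD hf fun a ha b hb hab v hva hvb =>
        ((load_le hf hd.2 ha hb hab hva hvb).trans hdc).trans_lt h

end Pool.Agent.P.MP_90a930_lc.Dg
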