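import Pool.Agent.P.MP_90a930_lc.DgBase

/-!
Graphs of maximum degree at most two: every instance of density below `5/6` is schedulable.
-/

namespace Pool.Agent.P.MP_90a930_lc.Dg

open SimpleGraph

section col

variable {α : Type} {A : α → α → Prop}

theorem three_col (hs : ∀ x y, A x y → A y x) (hi : ∀ x, ¬ A x x)
    (deg : ∀ x a b c, A x a → A x b → A x c → a = b ∨ a = c ∨ b = c) (S : Finset α) :
    ∃ col : α → ℕ, (∀ x, col x < 3) ∧ ∀ x ∈ S, ∀ y ∈ S, A x y → col x ≠ col y := by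
  classical
  induction S using Finset.induction_on with
  | empty => exact ⟨fun _ => 0, fun _ => by norm_num, fun x hx => absurd hx (by simp)⟩
  | insert v S hv ih =>
    obtain ⟨col, h1, h2⟩ := ih
    obtain ⟨k, hk, hk2⟩ : ∃ k < 3, ∀ u, A v u → col u ≠ k := by
      by_contra hne
      push Not at hne
      obtain ⟨a, a1, a2⟩ := hne 0 (by norm_num)
      obtain ⟨b, b1, b2⟩ := hne 1 (by norm_num)
      obtain ⟨c, c1, c2⟩ := hne 2 (by norm_num)
      rcases deg v a b c a1 b1 c1 with h | h | h <;> subst h <;> omega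
    refine ⟨fun x => if x = v then k else col x, fun x => ?_, fun x hx y hy hxy => ?_⟩
    · dsimp only
      split_ifs
      · exact hk
      · exact h1 x
    · dsimp only
      split_ifs with e1 e2 e2
      · exact absurd (by rwa [e1, e2] at hxy) (hi v)
      · exact (hk2 y (e1 ▸ hxy)).symm
      · exact hk2 x (e2 ▸ hs x y hxy)
      · exact h2 x ((Finset.mem_insert.1 hx).resolve_left e1) y
          ((Finset.mem_insert.1 hy).resolve_left e2) hxy

theorem five_types (hs : ∀ x y, A x y → A y x) (hi : ∀ x, ¬ A x x)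
    (deg : ∀ x a b c, A x a → A x b → A x c → a = b ∨ a = c ∨ b = c) (S : Finset α) :
    ∃ τ : α → ℕ, (∀ x, τ x < 5) ∧
      (∀ x ∈ S, ∀ y ∈ S, A x y → τ x ≠ τ y ∧ (τ x < 2 ↔ τ y < 2)) ∧
      ∀ x ∈ S, (∀ a ∈ S, ∀ b ∈ S, A x a → A x b → a = b) → τ x < 2 := by
  classical
  induction S using Finset.strongInduction with
  | H S ih =>
    by_cases h : ∃ v ∈ S, ∀ a ∈ S, ∀ b ∈ S, A v a → A v b → a = b
    · obtain ⟨v, hv, hv2⟩ := h
      obtain ⟨τ, h1, h2, h3⟩ := ih (S.erase v) (Finset.erase_ssubset hv)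
      obtain ⟨k, hk, hk2⟩ : ∃ k < 2, ∀ u ∈ S, A v u → τ u < 2 ∧ τ u ≠ k := by
        by_cases hu : ∃ u ∈ S, A v u
        · obtain ⟨u, hu, hvu⟩ := hu
          have hne : u ≠ v := fun e => hi v (e ▸ hvu)
          have h4 : τ u < 2 := by
            refine h3 u (Finset.mem_erase.2 ⟨hne, hu⟩) fun a ha b hb k1 k2 => ?_
            rcases deg u v a b (hs _ _ hvu) k1 k2 with e | e | e
            · exact absurd e.symm (Finset.mem_erase.1 ha).1
            · exact absurd e.symm (Finset.mem_erase.1 hb).1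
            · exact e
          refine ⟨1 - τ u, by omega, fun u' hu' h' => ?_⟩
          rw [hv2 u' hu' u hu h' hvu]
          omega
        · exact ⟨0, by norm_num, fun u h1 h2 => absurd ⟨u, h1, h2⟩ hu⟩
      refine ⟨fun x => if x = v then k else τ x, fun x => ?_, fun x hx y hy hxy => ?_,
        fun x hx hx2 => ?_⟩
      · dsimp only
        split_ifs
        · omega
        · exact h1 x
      · dsimp only
        split_ifs with e1 e2 e2
        · exact absurd (by rwa [e1, e2] at hxy) (hi v)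
        · have := hk2 y hy (e1 ▸ hxy)
          omega
        · have := hk2 x hx (e2 ▸ hs x y hxy)
          omega
        · exact h2 x (Finset.mem_erase.2 ⟨e1, hx⟩) y (Finset.mem_erase.2 ⟨e2, hy⟩) hxy
      · dsimp only
        split_ifs with e1
        · exact hk
        · exact h3 x (Finset.mem_erase.2 ⟨e1, hx⟩) fun a ha b hb =>
            hx2 a (Finset.mem_of_mem_erase ha) b (Finset.mem_of_mem_erase hb)
    · obtain ⟨col, h1, h2⟩ := three_col hs hi deg S
      refine ⟨fun x => col x + 2, fun x => ?_, fun x hx y hy hxy => ?_,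
        fun x hx hx2 => absurd ⟨x, hx, hx2⟩ h⟩
      · have := h1 x
        dsimp only
        omega
      · have := h2 x hx y hy hxy
        dsimp only
        omega

end col

variable {V : Type} [Finite V] {G : SimpleGraph V} {f : Sym2 V → ℕ}

theorem sched_one (hD : ∀ v, (G.neighborSet v).ncard ≤ 1) (hf : ∀ e ∈ G.edgeSet, 1 ≤ f e) :
    Sched G f := by
  refine sched_of (fun _ _ => True) (fun t e he e' he' v hv hv' => ?_)
    fun e he t => ⟨t, le_rfl, by have := hf e he; omega, trivial⟩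
  obtain ⟨w, rfl⟩ := Sym2.mem_iff_exists.1 hv
  obtain ⟨w', rfl⟩ := Sym2.mem_iff_exists.1 hv'
  rw [(Set.ncard_le_one (Set.toFinite _)).1 (hD v) w he.1 w' he'.1]

theorem three_at (hD : ∀ v, (G.neighborSet v).ncard ≤ 2) {e a b : Sym2 V} (he : e ∈ G.edgeSet)
    (ha : a ∈ G.edgeSet) (hb : b ∈ G.edgeSet) {v : V} (h1 : v ∈ e) (h2 : v ∈ a) (h3 : v ∈ b)
    (k1 : e ≠ a) (k2 : e ≠ b) : a = b := by
  obtain ⟨x, rfl⟩ := Sym2.mem_iff_exists.1 h1
  obtain ⟨y, rfl⟩ := Sym2.mem_iff_exists.1 h2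
  obtain ⟨z, rfl⟩ := Sym2.mem_iff_exists.1 h3
  by_contra k3
  have := (Set.two_lt_ncard_iff (Set.toFinite (G.neighborSet v))).2
    ⟨x, y, z, he, ha, hb, fun h => k1 (by rw [h]), fun h => k2 (by rw [h]),
      fun h => k3 (by rw [h])⟩
  have := hD v
  omega

/-- the days of an edge of frequency `a`, type `τ`, with or without a neighbour of frequency two -/
def day (a τ : ℕ) (H : Prop) (t : ℕ) : Prop :=
  a ≤ 1 ∨ (a = 2 ∧ t % 2 = 1) ∨ (3 ≤ a ∧ ((2 ≤ τ ∧ t % 3 + 2 = τ) ∨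
    (τ = 0 ∧ (t % 4 = 0 ∨ (¬ H ∧ t % 4 = 3))) ∨ (τ = 1 ∧ (t % 4 = 2 ∨ (¬ H ∧ t % 4 = 1)))))

theorem day_window {a τ : ℕ} {H : Prop} (ha : 1 ≤ a) (hτ : τ < 5) (hH : 3 ≤ a → H → 4 ≤ a)
    (t : ℕ) : ∃ s, t ≤ s ∧ s < t + a ∧ day a τ H s := by
  rcases (by omega : a = 1 ∨ a = 2 ∨ 3 ≤ a) with h1 | h1 | h1
  · exact ⟨t, le_rfl, by omega, Or.inl h1.le⟩
  · exact ⟨t + (t + 1) % 2, by omega, by omega, Or.inr (Or.inl ⟨h1, by omega⟩)⟩
  rcases (by omega : 2 ≤ τ ∨ τ = 0 ∨ τ = 1) with h2 | h2 | h2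
  · exact ⟨t + (τ + 1 - t % 3) % 3, by omega, by omega,
      Or.inr (Or.inr ⟨h1, Or.inl ⟨h2, by omega⟩⟩)⟩
  · by_cases h : H
    · have := hH h1 h
      exact ⟨t + (4 - t % 4) % 4, by omega, by omega,
        Or.inr (Or.inr ⟨h1, Or.inr (Or.inl ⟨h2, Or.inl (by omega)⟩)⟩)⟩
    · by_cases h3 : t % 4 = 0
      · exact ⟨t, le_rfl, by omega, Or.inr (Or.inr ⟨h1, Or.inr (Or.inl ⟨h2, Or.inl h3⟩)⟩)⟩
      · exact ⟨t + (3 - t % 4), by omega, by omega,
          Or.inr (Or.inr ⟨h1, Or.inr (Or.inl ⟨h2, Or.inr ⟨h, by omega⟩⟩)⟩)⟩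
  · by_cases h : H
    · have := hH h1 h
      exact ⟨t + (6 - t % 4) % 4, by omega, by omega,
        Or.inr (Or.inr ⟨h1, Or.inr (Or.inr ⟨h2, Or.inl (by omega)⟩)⟩)⟩
    · by_cases h3 : t % 4 = 2
      · exact ⟨t, le_rfl, by omega, Or.inr (Or.inr ⟨h1, Or.inr (Or.inr ⟨h2, Or.inl h3⟩)⟩)⟩
      · exact ⟨t + (5 - t % 4) % 4, by omega, by omega,
          Or.inr (Or.inr ⟨h1, Or.inr (Or.inr ⟨h2, Or.inr ⟨h, by omega⟩⟩)⟩)⟩

theorem day_two {τ t : ℕ} {H : Prop} (h : day 2 τ H t) : t % 2 = 1 := by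
  rcases h with h | h | h
  · omega
  · exact h.2
  · exact absurd h.1 (by norm_num)

theorem day_light {a τ t : ℕ} {H : Prop} (h : day a τ H t) (ha : 3 ≤ a) (hτ : τ < 2) (hH : H) :
    t % 2 = 0 := by
  rcases h with h | h | ⟨-, h | ⟨-, k | k⟩ | ⟨-, k | k⟩⟩
  · omega
  · omega
  · omega
  · omega
  · exact absurd hH k.1
  · omega
  · exact absurd hH k.1

theorem day_big {a τ t : ℕ} {H : Prop} (h : day a τ H t) (ha : 3 ≤ a) :
    (2 ≤ τ ∧ t % 3 + 2 = τ) ∨ (τ = 0 ∧ (t % 4 = 0 ∨ t % 4 = 3)) ∨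
      (τ = 1 ∧ (t % 4 = 2 ∨ t % 4 = 1)) := by
  rcases h with h | h | ⟨-, h | ⟨h, k | k⟩ | ⟨h, k | k⟩⟩
  · omega
  · omega
  · exact Or.inl h
  · exact Or.inr (Or.inl ⟨h, Or.inl k⟩)
  · exact Or.inr (Or.inl ⟨h, Or.inr k.2⟩)
  · exact Or.inr (Or.inr ⟨h, Or.inl k⟩)
  · exact Or.inr (Or.inr ⟨h, Or.inr k.2⟩)

theorem day_clash {a b τ σ t : ℕ} {H K : Prop} (h : day a τ H t) (k : day b σ K t) (ha : 3 ≤ a)
    (hb : 3 ≤ b) (h1 : τ ≠ σ) (h2 : τ < 2 ↔ σ < 2) : False := by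
  rcases day_big h ha with p | p | p <;> rcases day_big k hb with q | q | q <;> omega

theorem sched_two (hD : ∀ v, (G.neighborSet v).ncard ≤ 2) (hf : ∀ e ∈ G.edgeSet, 1 ≤ f e)
    (hl : ∀ a ∈ G.edgeSet, ∀ b ∈ G.edgeSet, a ≠ b → ∀ v, v ∈ a → v ∈ b →
      1 / (f a : ℝ) + 1 / (f b : ℝ) < 5 / 6) : Sched G f := by
  classical
  let A : Sym2 V → Sym2 V → Prop := fun a b =>
    a ∈ G.edgeSet ∧ b ∈ G.edgeSet ∧ a ≠ b ∧ ∃ v, v ∈ a ∧ v ∈ b
  have hs : ∀ x y, A x y → A y x := fun x y ⟨a, b, c, v, d, e⟩ => ⟨b, a, c.symm, v, e, d⟩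
  have hi : ∀ x, ¬ A x x := fun x h => h.2.2.1 rfl
  have deg : ∀ x a b c, A x a → A x b → A x c → a = b ∨ a = c ∨ b = c := by
    rintro x a b c ⟨hx, ha, k1, u1, p1, q1⟩ ⟨-, hb, k2, u2, p2, q2⟩ ⟨-, hc, k3, u3, p3, q3⟩
    induction x using Sym2.ind with
    | h u v =>
      have l := Sym2.mem_mk_left u v
      have r := Sym2.mem_mk_right u v
      rcases Sym2.mem_iff.1 p1 with rfl | rfl <;> rcases Sym2.mem_iff.1 p2 with e2 | e2 <;>
        rcases Sym2.mem_iff.1 p3 with e3 | e3 <;> rw [e2] at q2 <;> rw [e3] at q3 <;>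
        first
          | exact Or.inl (three_at hD hx ha hb p1 q1 q2 k1 k2)
          | exact Or.inr (Or.inl (three_at hD hx ha hc p1 q1 q3 k1 k3))
          | exact Or.inr (Or.inr (three_at hD hx hb hc l q2 q3 k2 k3))
          | exact Or.inr (Or.inr (three_at hD hx hb hc r q2 q3 k2 k3))
  have load : ∀ a b, A a b → 2 ≤ f a ∧ (f a = 2 → 4 ≤ f b) := by
    rintro a b ⟨ha, hb, hab, v, h1, h2⟩
    have k := hl a ha b hb hab v h1 h2
    have pa := hf a ha
    have pb := hf b hb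
    have pb' : (0 : ℝ) < f b := by exact_mod_cast pb
    constructor
    · by_contra hn
      have : f a = 1 := by omega
      rw [this] at k
      have : (0 : ℝ) < 1 / (f b : ℝ) := by positivity
      norm_num at k
      rw [one_div] at this
      linarith
    · intro h2
      by_contra hn
      have h3 : (f b : ℝ) ≤ 3 := by exact_mod_cast (by omega : f b ≤ 3)
      have h4 := one_div_le_one_div_of_le pb' h3
      rw [h2] at k
      push_cast at k
      linarith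
  obtain ⟨τ, t1, t2, t3⟩ := five_types hs hi deg (Set.toFinite {e : Sym2 V | 3 ≤ f e}).toFinset
  have mem : ∀ e, 3 ≤ f e → e ∈ (Set.toFinite {e : Sym2 V | 3 ≤ f e}).toFinset :=
    fun e he => (Set.Finite.mem_toFinset _).2 he
  have light : ∀ a b, A a b → f b = 2 → 3 ≤ f a → τ a < 2 := by
    intro a b hab hb ha
    refine t3 a (mem a ha) fun x hx y hy k1 k2 => ?_
    have hx' : 3 ≤ f x := (Set.Finite.mem_toFinset (Set.toFinite {e : Sym2 V | 3 ≤ f e})).1 hx
    have hy' : 3 ≤ f y := (Set.Finite.mem_toFinset (Set.toFinite {e : Sym2 V | 3 ≤ f e})).1 hy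
    rcases deg a b x y hab k1 k2 with e | e | e
    · rw [← e] at hx'; omega
    · rw [← e] at hy'; omega
    · exact e
  refine sched_of (fun e t => day (f e) (τ e) (∃ b, A e b ∧ f b = 2) t)
    (fun t a ha b hb v hv hv' => ?_) fun e he t => day_window (hf e he) (t1 e) ?_ t
  · by_contra hab
    have h1 : A a b := ⟨ha.1, hb.1, hab, v, hv, hv'⟩
    have h2 := hs _ _ h1
    have l1 := load a b h1
    have l2 := load b a h2
    have da : day (f a) (τ a) (∃ x, A a x ∧ f x = 2) t := ha.2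
    have db : day (f b) (τ b) (∃ x, A b x ∧ f x = 2) t := hb.2
    by_cases c1 : f a = 2
    · have k1 : 3 ≤ f b := by have := l1.2 c1; omega
      have k2 := day_light db k1 (light b a h2 c1 k1) ⟨a, h2, c1⟩
      rw [c1] at da
      have := day_two da
      omega
    by_cases c2 : f b = 2
    · have k1 : 3 ≤ f a := by have := l2.2 c2; omega
      have k2 := day_light da k1 (light a b h1 c2 k1) ⟨b, h1, c2⟩
      rw [c2] at db
      have := day_two db
      omega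
    have k1 : 3 ≤ f a := by have := l1.1; omega
    have k2 : 3 ≤ f b := by have := l2.1; omega
    have := t2 a (mem a k1) b (mem b k2) h1
    exact day_clash da db k1 k2 this.1 this.2
  · rintro - ⟨b, h1, h2⟩
    exact (load b e (hs _ _ h1)).2 h2

end Pool.Agent.P.MP_90a930_lc.Dg
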