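import Mathlib

/-!
A connected bipartite instance on seven vertices and seven edges with one free frequency `N`:
poly density `3/4 + 1/N`, and the edge of frequency `N` can never be scheduled.
-/

namespace Pool.Agent.P.MP_90a930_lc.Quarter

open SimpleGraph

/-- The seven edges. -/
def E : Finset (Sym2 (Fin 7)) :=
  {s(0,1), s(0,2), s(0,4), s(2,3), s(3,4), s(4,5), s(4,6)}

/-- The graph. -/
def G : SimpleGraph (Fin 7) where
  Adj u v := s(u,v) ∈ E
  symm := ⟨fun u v h => by rwa [Sym2.eq_swap]⟩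
  loopless := ⟨by decide⟩

/-- The fixed frequencies. -/
def fr0 (e : Sym2 (Fin 7)) : ℕ :=
  if e = s(0,1) ∨ e = s(2,3) then 2 else if e = s(0,2) then 4 else if e = s(4,5) then 3 else 5

/-- The frequencies. -/
def fr (N : ℕ) (e : Sym2 (Fin 7)) : ℕ := if e = s(0,4) then N else fr0 e

lemma fr_04 (N : ℕ) : fr N s(0,4) = N := if_pos rfl

lemma fr_ne (N : ℕ) {e : Sym2 (Fin 7)} {k : ℕ} (h : e ≠ s(0,4) ∧ fr0 e = k) : fr N e = k := by
  rw [fr, if_neg h.1, h.2]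

lemma edgeSet_eq : G.edgeSet = (E : Set (Sym2 (Fin 7))) := by
  ext e
  induction e using Sym2.ind with
  | h u v => simp [G]

/-- The subgraph spanned by a set of edges. -/
def sub (F : Finset (Sym2 (Fin 7))) (hF : F ⊆ E) : G.Subgraph where
  verts := {v | ∃ w, s(v,w) ∈ F}
  Adj u v := s(u,v) ∈ F
  adj_sub h := hF h
  edge_vert h := ⟨_, h⟩
  symm := ⟨fun u v h => by rwa [Sym2.eq_swap]⟩

lemma sub_edgeSet (F : Finset (Sym2 (Fin 7))) (hF : F ⊆ E) :
    (sub F hF).edgeSet = (F : Set (Sym2 (Fin 7))) := by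
  ext e
  induction e using Sym2.ind with
  | h u v => simp [sub]

lemma sub_isMatching (F : Finset (Sym2 (Fin 7))) (hF : F ⊆ E)
    (h : ∀ v w w' : Fin 7, s(v,w) ∈ F → s(v,w') ∈ F → w = w') : (sub F hF).IsMatching := by
  rintro v ⟨w, hw⟩
  exact ⟨w, hw, fun w' hw' => h v w' w hw' hw⟩

lemma weight_mono (g : Sym2 (Fin 7) → ℝ) (hg : ∀ e ∈ G.edgeSet, 0 ≤ g e) {M M' : G.Subgraph}
    (h : M ≤ M') : ∑ᶠ e ∈ M.edgeSet, g e ≤ ∑ᶠ e ∈ M'.edgeSet, g e := by
  rw [finsum_mem_eq_finite_toFinset_sum g (Set.toFinite M.edgeSet),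
    finsum_mem_eq_finite_toFinset_sum g (Set.toFinite M'.edgeSet)]
  apply Finset.sum_le_sum_of_subset_of_nonneg
  · intro e he
    simp only [Set.Finite.mem_toFinset] at he ⊢
    exact Subgraph.edgeSet_mono h he
  · intro e he _
    simp only [Set.Finite.mem_toFinset] at he
    exact hg e (M'.edgeSet_subset he)

lemma exists_maximal_ge (g : Sym2 (Fin 7) → ℝ) (hg : ∀ e ∈ G.edgeSet, 0 ≤ g e)
    (F : Finset (Sym2 (Fin 7))) (hF : F ⊆ E)
    (h : ∀ v w w' : Fin 7, s(v,w) ∈ F → s(v,w') ∈ F → w = w') :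
    ∃ M : G.Subgraph, Maximal Subgraph.IsMatching M ∧ ∑ e ∈ F, g e ≤ ∑ᶠ e ∈ M.edgeSet, g e := by
  obtain ⟨M, hle, hM⟩ := Finite.exists_le_maximal (sub_isMatching F hF h)
  refine ⟨M, hM, ?_⟩
  have := weight_mono g hg hle
  rwa [sub_edgeSet, finsum_mem_coe_finset] at this

lemma sum_E (z : Sym2 (Fin 7) → ℝ) : ∑ᶠ e ∈ G.edgeSet, z e =
    z s(0,1) + (z s(0,2) + (z s(0,4) + (z s(2,3) + (z s(3,4) + (z s(4,5) + z s(4,6)))))) := by
  rw [edgeSet_eq, finsum_mem_coe_finset, E]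
  rw [Finset.sum_insert (by decide), Finset.sum_insert (by decide), Finset.sum_insert (by decide),
    Finset.sum_insert (by decide), Finset.sum_insert (by decide), Finset.sum_insert (by decide),
    Finset.sum_singleton]

lemma exists_maximal_big (N : ℕ) (hN : 1 ≤ N) (z : Sym2 (Fin 7) → ℝ)
    (hz : ∀ e ∈ G.edgeSet, 0 ≤ z e) (hs : ∑ᶠ e ∈ G.edgeSet, z e = 1) :
    ∃ M : G.Subgraph, Maximal Subgraph.IsMatching M ∧
      1 / (3 / 4 + 1 / (N : ℝ)) ≤ ∑ᶠ e ∈ M.edgeSet, z e * (fr N e : ℝ) := by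
  have hg : ∀ e ∈ G.edgeSet, 0 ≤ z e * (fr N e : ℝ) := fun e he =>
    mul_nonneg (hz e he) (Nat.cast_nonneg _)
  obtain ⟨M1, h1, l1⟩ := exists_maximal_ge _ hg {s(0,4), s(2,3)} (by decide) (by decide)
  obtain ⟨M2, h2, l2⟩ := exists_maximal_ge _ hg {s(0,2), s(3,4)} (by decide) (by decide)
  obtain ⟨M3, h3, l3⟩ := exists_maximal_ge _ hg {s(0,2), s(4,5)} (by decide) (by decide)
  obtain ⟨M4, h4, l4⟩ := exists_maximal_ge _ hg {s(0,1), s(2,3), s(4,5)} (by decide) (by decide)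
  obtain ⟨M5, h5, l5⟩ := exists_maximal_ge _ hg {s(0,1), s(2,3), s(4,6)} (by decide) (by decide)
  rw [sum_E] at hs
  rw [Finset.sum_insert (by decide), Finset.sum_singleton] at l1 l2 l3
  rw [Finset.sum_insert (by decide), Finset.sum_insert (by decide), Finset.sum_singleton] at l4 l5
  have f01 : fr N s(0,1) = 2 := fr_ne N (by decide)
  have f02 : fr N s(0,2) = 4 := fr_ne N (by decide)
  have f23 : fr N s(2,3) = 2 := fr_ne N (by decide)
  have f34 : fr N s(3,4) = 5 := fr_ne N (by decide)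
  have f45 : fr N s(4,5) = 3 := fr_ne N (by decide)
  have f46 : fr N s(4,6) = 5 := fr_ne N (by decide)
  simp only [f01, f02, f23, f34, f45, f46, fr_04] at l1 l2 l3 l4 l5
  push_cast at l1 l2 l3 l4 l5
  by_contra hcon
  push Not at hcon
  have a1 := hcon M1 h1
  have a2 := hcon M2 h2
  have a3 := hcon M3 h3
  have a4 := hcon M4 h4
  have a5 := hcon M5 h5
  have hNpos : (0 : ℝ) < N := by exact_mod_cast hN
  have hu : (0 : ℝ) < 1 / (N : ℝ) := by positivity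
  have z23 : 0 ≤ z s(2,3) := hz _ (by rw [edgeSet_eq]; decide)
  have z45 : 0 ≤ z s(4,5) := hz _ (by rw [edgeSet_eq]; decide)
  set w : ℝ := 1 / (3 / 4 + 1 / (N : ℝ)) with hw
  have hw1 : w * (3 / 4) + w * (1 / (N : ℝ)) = 1 := by
    rw [← mul_add, hw]; field_simp
  have b1 : z s(0,4) * N < w := by linarith
  have b2 : z s(0,4) < w * (1 / (N : ℝ)) := by
    rw [mul_one_div, lt_div_iff₀ hNpos]; exact b1
  linarith

/-- The extremal weighting, for the value `w`. -/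
noncomputable def z0 (N : ℕ) (w : ℝ) (e : Sym2 (Fin 7)) : ℝ :=
  if e = s(0,1) then w / 2 else if e = s(0,2) then w / 4 else if e = s(0,4) then w / N else 0

lemma matching_disj {M : G.Subgraph} (hM : M.IsMatching) {u v w : Fin 7} (hvw : v ≠ w)
    (h1 : s(u,v) ∈ M.edgeSet) (h2 : s(u,w) ∈ M.edgeSet) : False :=
  hvw (hM.eq_of_adj_left (Subgraph.mem_edgeSet.1 h1) (Subgraph.mem_edgeSet.1 h2))

lemma z0_weight_le (N : ℕ) (hN : 1 ≤ N) (w : ℝ) (hw : 0 ≤ w) {M : G.Subgraph}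
    (hM : M.IsMatching) : ∑ᶠ e ∈ M.edgeSet, z0 N w e * (fr N e : ℝ) ≤ w := by
  classical
  have hNpos : (0 : ℝ) < N := by exact_mod_cast hN
  rw [finsum_mem_eq_finite_toFinset_sum _ (Set.toFinite M.edgeSet)]
  have key : ∀ e, z0 N w e * (fr N e : ℝ) =
      (if s(0,1) = e then w else 0) + (if s(0,2) = e then w else 0) +
        (if s(0,4) = e then w else 0) := by
    intro e
    by_cases h1 : e = s(0,1)
    · subst h1
      have f01 : fr N s(0,1) = 2 := fr_ne N (by decide)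
      rw [f01, z0, if_pos rfl, if_pos rfl, if_neg (by decide), if_neg (by decide)]
      push_cast; ring
    · by_cases h2 : e = s(0,2)
      · subst h2
        have f02 : fr N s(0,2) = 4 := fr_ne N (by decide)
        rw [f02, z0, if_neg (by decide), if_pos rfl, if_neg (by decide), if_pos rfl,
          if_neg (by decide)]
        push_cast; ring
      · by_cases h3 : e = s(0,4)
        · subst h3
          rw [fr_04, z0, if_neg (by decide), if_neg (by decide), if_pos rfl, if_neg (by decide),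
            if_neg (by decide), if_pos rfl]
          field_simp; ring
        · rw [z0, if_neg h1, if_neg h2, if_neg h3, if_neg (Ne.symm h1), if_neg (Ne.symm h2),
            if_neg (Ne.symm h3)]
          ring
  simp only [key, Finset.sum_add_distrib, Finset.sum_ite_eq, Set.Finite.mem_toFinset]
  have d12 : s(0,1) ∈ M.edgeSet → s(0,2) ∈ M.edgeSet → False := matching_disj hM (by decide)
  have d14 : s(0,1) ∈ M.edgeSet → s(0,4) ∈ M.edgeSet → False := matching_disj hM (by decide)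
  have d24 : s(0,2) ∈ M.edgeSet → s(0,4) ∈ M.edgeSet → False := matching_disj hM (by decide)
  split_ifs with h1 h2 h3 h4 h5 h6 h7
  · exact (d12 h1 h2).elim
  · exact (d12 h1 h2).elim
  · exact (d14 h1 h4).elim
  · linarith
  · exact (d24 h5 h6).elim
  · linarith
  · linarith
  · linarith

lemma density (N : ℕ) (hN : 1 ≤ N) : IsGreatest {d : ℝ | ∃ z : Sym2 (Fin 7) → ℝ,
      (∀ e ∈ G.edgeSet, z e ∈ Set.Icc (0 : ℝ) 1) ∧ ∑ᶠ e ∈ G.edgeSet, z e = 1 ∧
      ∃ w : ℝ, IsGreatest {x : ℝ | ∃ M : G.Subgraph, Maximal Subgraph.IsMatching M ∧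
        x = ∑ᶠ e ∈ M.edgeSet, z e * (fr N e : ℝ)} w ∧ d = 1 / w} (3 / 4 + 1 / (N : ℝ)) := by
  have hNpos : (0 : ℝ) < N := by exact_mod_cast hN
  have hu : (0 : ℝ) < 1 / (N : ℝ) := by positivity
  set w : ℝ := 1 / (3 / 4 + 1 / (N : ℝ)) with hw
  have hwpos : 0 < w := by positivity
  have hw1 : w / 2 + (w / 4 + w / N) = 1 := by
    rw [hw]; field_simp; ring
  have hwN : 0 ≤ w / N := by positivity
  have hmem : ∀ e, z0 N w e ∈ Set.Icc (0 : ℝ) 1 := by
    intro e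
    unfold z0
    split_ifs <;> constructor <;> linarith
  have hsum : ∑ᶠ e ∈ G.edgeSet, z0 N w e = 1 := by
    rw [sum_E]
    simp only [z0]
    rw [if_pos trivial, if_neg (by decide), if_pos trivial, if_neg (by decide), if_neg (by decide),
      if_pos trivial]
    repeat rw [if_neg (by decide)]
    linarith
  constructor
  · refine ⟨z0 N w, fun e _ => hmem e, hsum, w, ⟨?_, ?_⟩, by rw [hw, one_div_one_div]⟩
    · obtain ⟨M, hM, hle⟩ := exists_maximal_big N hN _ (fun e _ => (hmem e).1) hsum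
      exact ⟨M, hM, le_antisymm hle (z0_weight_le N hN w hwpos.le hM.prop)⟩
    · rintro x ⟨M, hM, rfl⟩
      exact z0_weight_le N hN w hwpos.le hM.prop
  · rintro d ⟨z, hz, hs, v, hv, rfl⟩
    obtain ⟨M, hM, hle⟩ := exists_maximal_big N hN z (fun e he => (hz e he).1) hs
    have h1 : w ≤ v := hle.trans (hv.2 ⟨M, hM, rfl⟩)
    have h2 := one_div_le_one_div_of_le hwpos h1
    rwa [hw, one_div_one_div] at h2

/-- The combinatorial core: the edge `e` cannot be used on a day `t + 3`. -/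
lemma core (a b p q r u e : ℕ → Prop)
    (wa : ∀ t, a t ∨ a (t+1)) (wp : ∀ t, p t ∨ p (t+1))
    (wb : ∀ t, b t ∨ b (t+1) ∨ b (t+2) ∨ b (t+3))
    (wr : ∀ t, r t ∨ r (t+1) ∨ r (t+2))
    (wq : ∀ t, q t ∨ q (t+1) ∨ q (t+2) ∨ q (t+3) ∨ q (t+4))
    (wu : ∀ t, u t ∨ u (t+1) ∨ u (t+2) ∨ u (t+3) ∨ u (t+4))
    (ab : ∀ t, a t → b t → False) (ae : ∀ t, a t → e t → False) (be : ∀ t, b t → e t → False)
    (bp : ∀ t, b t → p t → False) (pq : ∀ t, p t → q t → False)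
    (qe : ∀ t, q t → e t → False) (re : ∀ t, r t → e t → False) (ue : ∀ t, u t → e t → False)
    (qr : ∀ t, q t → r t → False) (qu : ∀ t, q t → u t → False) (ru : ∀ t, r t → u t → False)
    (t : ℕ) (h : e (t+3)) : False := by
  have a2 : a (t+2) := (wa (t+2)).resolve_right fun h' => ae _ h' h
  have a4 : a (t+4) := (wa (t+3)).resolve_left fun h' => ae _ h' h
  have nb2 : ¬ b (t+2) := ab _ a2
  have nb3 : ¬ b (t+3) := fun h' => be _ h' h
  have nb4 : ¬ b (t+4) := ab _ a4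
  have b1 : b (t+1) := by
    rcases wb (t+1) with h' | h' | h' | h'
    exacts [h', (nb2 h').elim, (nb3 h').elim, (nb4 h').elim]
  have b5 : b (t+5) := by
    rcases wb (t+2) with h' | h' | h' | h'
    exacts [(nb2 h').elim, (nb3 h').elim, (nb4 h').elim, h']
  have p0 : p t := (wp t).resolve_right (bp _ b1)
  have p2 : p (t+2) := (wp (t+1)).resolve_left (bp _ b1)
  have p4 : p (t+4) := (wp (t+4)).resolve_right (bp _ b5)
  have p6 : p (t+6) := (wp (t+5)).resolve_left (bp _ b5)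
  have nq3 : ¬ q (t+3) := fun h' => qe _ h' h
  have q1 : q (t+1) := by
    rcases wq t with h' | h' | h' | h' | h'
    exacts [(pq _ p0 h').elim, h', (pq _ p2 h').elim, (nq3 h').elim, (pq _ p4 h').elim]
  have q5 : q (t+5) := by
    rcases wq (t+2) with h' | h' | h' | h' | h'
    exacts [(pq _ p2 h').elim, (nq3 h').elim, (pq _ p4 h').elim, h', (pq _ p6 h').elim]
  have nr3 : ¬ r (t+3) := fun h' => re _ h' h
  have r2 : r (t+2) := by
    rcases wr (t+1) with h' | h' | h'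
    exacts [(qr _ q1 h').elim, h', (nr3 h').elim]
  have r4 : r (t+4) := by
    rcases wr (t+3) with h' | h' | h'
    exacts [(nr3 h').elim, h', (qr _ q5 h').elim]
  rcases wu (t+1) with h' | h' | h' | h' | h'
  exacts [qu _ q1 h', ru _ r2 h', ue _ h' h, ru _ r4 h', qu _ q5 h']

lemma not_schedulable (N : ℕ) : ¬ ∃ S : ℕ → G.Subgraph, (∀ t, (S t).IsMatching) ∧
    ∀ e ∈ G.edgeSet, ∀ t : ℕ, ∃ s : ℕ, t ≤ s ∧ s < t + fr N e ∧ e ∈ (S s).edgeSet := by
  rintro ⟨S, hM, hW⟩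
  rw [edgeSet_eq] at hW
  have w2 : ∀ e ∈ E, e ≠ s(0,4) ∧ fr0 e = 2 → ∀ t,
      e ∈ (S t).edgeSet ∨ e ∈ (S (t+1)).edgeSet := by
    intro e he hf t
    obtain ⟨s, h1, h2, h3⟩ := hW e he t
    rw [fr_ne N hf] at h2
    have : s = t ∨ s = t + 1 := by omega
    rcases this with rfl | rfl <;> simp only [h3, true_or, or_true]
  have w3 : ∀ e ∈ E, e ≠ s(0,4) ∧ fr0 e = 3 → ∀ t,
      e ∈ (S t).edgeSet ∨ e ∈ (S (t+1)).edgeSet ∨ e ∈ (S (t+2)).edgeSet := by
    intro e he hf t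
    obtain ⟨s, h1, h2, h3⟩ := hW e he t
    rw [fr_ne N hf] at h2
    have : s = t ∨ s = t + 1 ∨ s = t + 2 := by omega
    rcases this with rfl | rfl | rfl <;> simp only [h3, true_or, or_true]
  have w4 : ∀ e ∈ E, e ≠ s(0,4) ∧ fr0 e = 4 → ∀ t,
      e ∈ (S t).edgeSet ∨ e ∈ (S (t+1)).edgeSet ∨ e ∈ (S (t+2)).edgeSet ∨
        e ∈ (S (t+3)).edgeSet := by
    intro e he hf t
    obtain ⟨s, h1, h2, h3⟩ := hW e he t
    rw [fr_ne N hf] at h2
    have : s = t ∨ s = t + 1 ∨ s = t + 2 ∨ s = t + 3 := by omega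
    rcases this with rfl | rfl | rfl | rfl <;> simp only [h3, true_or, or_true]
  have w5 : ∀ e ∈ E, e ≠ s(0,4) ∧ fr0 e = 5 → ∀ t,
      e ∈ (S t).edgeSet ∨ e ∈ (S (t+1)).edgeSet ∨ e ∈ (S (t+2)).edgeSet ∨
        e ∈ (S (t+3)).edgeSet ∨ e ∈ (S (t+4)).edgeSet := by
    intro e he hf t
    obtain ⟨s, h1, h2, h3⟩ := hW e he t
    rw [fr_ne N hf] at h2
    have : s = t ∨ s = t + 1 ∨ s = t + 2 ∨ s = t + 3 ∨ s = t + 4 := by omega
    rcases this with rfl | rfl | rfl | rfl | rfl <;> simp only [h3, true_or, or_true]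
  have nn : ∀ (e e' : Sym2 (Fin 7)), (∃ u v w : Fin 7, v ≠ w ∧ e = s(u,v) ∧ e' = s(u,w)) →
      ∀ t, e ∈ (S t).edgeSet → e' ∈ (S t).edgeSet → False := by
    rintro e e' ⟨u, v, w, hvw, rfl, rfl⟩ t h1 h2
    exact matching_disj (hM t) hvw h1 h2
  obtain ⟨s, hs1, -, hs⟩ := hW s(0,4) (by decide) 3
  obtain ⟨t, rfl⟩ : ∃ t, s = t + 3 := ⟨s - 3, by omega⟩
  exact core (fun t => s(0,1) ∈ (S t).edgeSet) (fun t => s(0,2) ∈ (S t).edgeSet)
    (fun t => s(2,3) ∈ (S t).edgeSet) (fun t => s(3,4) ∈ (S t).edgeSet)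
    (fun t => s(4,5) ∈ (S t).edgeSet) (fun t => s(4,6) ∈ (S t).edgeSet)
    (fun t => s(0,4) ∈ (S t).edgeSet)
    (w2 _ (by decide) (by decide)) (w2 _ (by decide) (by decide))
    (w4 _ (by decide) (by decide)) (w3 _ (by decide) (by decide))
    (w5 _ (by decide) (by decide)) (w5 _ (by decide) (by decide))
    (nn _ _ (by decide)) (nn _ _ (by decide)) (nn _ _ (by decide)) (nn _ _ (by decide))
    (nn _ _ (by decide)) (nn _ _ (by decide)) (nn _ _ (by decide)) (nn _ _ (by decide))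
    (nn _ _ (by decide)) (nn _ _ (by decide)) (nn _ _ (by decide)) t hs

lemma bipartite : G.IsBipartite := by
  refine ⟨Coloring.mk (fun v => if v = 1 ∨ v = 2 ∨ v = 4 then 0 else 1) ?_⟩
  intro u v h
  revert u v
  change ∀ u v : Fin 7, s(u,v) ∈ E → _
  decide

theorem main (c : ℝ) (hc : 3 / 4 < c) :
    ∃ (G : SimpleGraph (Fin 7)) (f : Sym2 (Fin 7) → ℕ) (d : ℝ),
    G.IsBipartite ∧ G.edgeSet.Nonempty ∧ (∀ e ∈ G.edgeSet, 1 ≤ f e) ∧
    IsGreatest {y : ℝ | ∃ z : Sym2 (Fin 7) → ℝ,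
      (∀ e ∈ G.edgeSet, z e ∈ Set.Icc (0 : ℝ) 1) ∧ ∑ᶠ e ∈ G.edgeSet, z e = 1 ∧
      ∃ w : ℝ, IsGreatest {x : ℝ | ∃ M : G.Subgraph, Maximal SimpleGraph.Subgraph.IsMatching M ∧
        x = ∑ᶠ e ∈ M.edgeSet, z e * (f e : ℝ)} w ∧ y = 1 / w} d ∧ d < c ∧
    ¬ ∃ S : ℕ → G.Subgraph, (∀ t, (S t).IsMatching) ∧
      ∀ e ∈ G.edgeSet, ∀ t : ℕ, ∃ s : ℕ, t ≤ s ∧ s < t + f e ∧ e ∈ (S s).edgeSet := by
  obtain ⟨n, hn⟩ := exists_nat_one_div_lt (show (0 : ℝ) < c - 3 / 4 by linarith)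
  refine ⟨G, fr (n + 1), 3 / 4 + 1 / ((n + 1 : ℕ) : ℝ), bipartite, ⟨s(0,1), ?_⟩, ?_,
    density (n + 1) (by omega), ?_, not_schedulable _⟩
  · rw [edgeSet_eq]; decide
  · intro e _
    unfold fr fr0
    split_ifs <;> omega
  · push_cast; linarith

end Pool.Agent.P.MP_90a930_lc.Quarter
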