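import Mathlib

/-!
A bipartite instance on nine vertices and ten edges, of poly density exactly 5/6,
with no feasible schedule.
-/

namespace Pool.Agent.P.MP_90a930_lc

open SimpleGraph

/-- The ten edges. -/
def E : Finset (Sym2 (Fin 9)) :=
  {s(0,1), s(1,2), s(2,3), s(2,4), s(4,5), s(5,6), s(6,0), s(4,7), s(7,8), s(8,0)}

/-- The graph. -/
def G : SimpleGraph (Fin 9) where
  Adj u v := s(u,v) ∈ E
  symm := ⟨fun u v h => by rwa [Sym2.eq_swap]⟩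
  loopless := ⟨by decide⟩

/-- The frequencies. -/
def fr (e : Sym2 (Fin 9)) : ℕ :=
  if e = s(0,1) ∨ e = s(5,6) ∨ e = s(7,8) then 2
  else if e = s(2,4) ∨ e = s(6,0) ∨ e = s(8,0) then 6 else 3

lemma edgeSet_eq : G.edgeSet = (E : Set (Sym2 (Fin 9))) := by
  ext e
  induction e using Sym2.ind with
  | h u v => simp [G]

/-- The subgraph spanned by a set of edges. -/
def sub (F : Finset (Sym2 (Fin 9))) (hF : F ⊆ E) : G.Subgraph where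
  verts := {v | ∃ w, s(v,w) ∈ F}
  Adj u v := s(u,v) ∈ F
  adj_sub h := hF h
  edge_vert h := ⟨_, h⟩
  symm := ⟨fun u v h => by rwa [Sym2.eq_swap]⟩

lemma sub_edgeSet (F : Finset (Sym2 (Fin 9))) (hF : F ⊆ E) :
    (sub F hF).edgeSet = (F : Set (Sym2 (Fin 9))) := by
  ext e
  induction e using Sym2.ind with
  | h u v => simp [sub]

lemma sub_isMatching (F : Finset (Sym2 (Fin 9))) (hF : F ⊆ E)
    (h : ∀ v w w' : Fin 9, s(v,w) ∈ F → s(v,w') ∈ F → w = w') : (sub F hF).IsMatching := by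
  rintro v ⟨w, hw⟩
  exact ⟨w, hw, fun w' hw' => h v w' w hw' hw⟩

lemma weight_mono (g : Sym2 (Fin 9) → ℝ) (hg : ∀ e ∈ G.edgeSet, 0 ≤ g e) {M M' : G.Subgraph}
    (h : M ≤ M') : ∑ᶠ e ∈ M.edgeSet, g e ≤ ∑ᶠ e ∈ M'.edgeSet, g e := by
  rw [finsum_mem_eq_finite_toFinset_sum g (Set.toFinite M.edgeSet),
    finsum_mem_eq_finite_toFinset_sum g (Set.toFinite M'.edgeSet)]
  apply Finset.sum_le_sum_of_subset_of_nonneg
  · intro e he
    simp only [Set.Finite.mem_toFinset] at he ⊢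
    exact Subgraph.edgeSet_mono h he
  · intro e he _
    simp only [Set.Finite.mem_toFinset] at he
    exact hg e (M'.edgeSet_subset he)

lemma exists_maximal_ge (g : Sym2 (Fin 9) → ℝ) (hg : ∀ e ∈ G.edgeSet, 0 ≤ g e)
    (F : Finset (Sym2 (Fin 9))) (hF : F ⊆ E)
    (h : ∀ v w w' : Fin 9, s(v,w) ∈ F → s(v,w') ∈ F → w = w') :
    ∃ M : G.Subgraph, Maximal Subgraph.IsMatching M ∧ ∑ e ∈ F, g e ≤ ∑ᶠ e ∈ M.edgeSet, g e := by
  obtain ⟨M, hle, hM⟩ := Finite.exists_le_maximal (sub_isMatching F hF h)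
  refine ⟨M, hM, ?_⟩
  have := weight_mono g hg hle
  rwa [sub_edgeSet, finsum_mem_coe_finset] at this

lemma exists_maximal_six_fifths (z : Sym2 (Fin 9) → ℝ) (hz : ∀ e ∈ G.edgeSet, 0 ≤ z e)
    (hs : ∑ᶠ e ∈ G.edgeSet, z e = 1) :
    ∃ M : G.Subgraph, Maximal Subgraph.IsMatching M ∧
      (6 / 5 : ℝ) ≤ ∑ᶠ e ∈ M.edgeSet, z e * (fr e : ℝ) := by
  have hg : ∀ e ∈ G.edgeSet, 0 ≤ z e * (fr e : ℝ) := fun e he =>
    mul_nonneg (hz e he) (Nat.cast_nonneg _)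
  obtain ⟨M1, h1, l1⟩ := exists_maximal_ge _ hg {s(2,4), s(5,6), s(7,8), s(0,1)}
    (by decide) (by decide)
  obtain ⟨M2, h2, l2⟩ := exists_maximal_ge _ hg {s(4,5), s(7,8), s(6,0), s(1,2)}
    (by decide) (by decide)
  obtain ⟨M3, h3, l3⟩ := exists_maximal_ge _ hg {s(4,5), s(7,8), s(0,1), s(2,3)}
    (by decide) (by decide)
  obtain ⟨M4, h4, l4⟩ := exists_maximal_ge _ hg {s(4,7), s(5,6), s(8,0), s(1,2)}
    (by decide) (by decide)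
  obtain ⟨M5, h5, l5⟩ := exists_maximal_ge _ hg {s(4,7), s(5,6), s(0,1), s(2,3)}
    (by decide) (by decide)
  rw [edgeSet_eq, finsum_mem_coe_finset, E] at hs
  rw [Finset.sum_insert (by decide), Finset.sum_insert (by decide), Finset.sum_insert (by decide),
    Finset.sum_singleton] at l1 l2 l3 l4 l5
  rw [Finset.sum_insert (by decide), Finset.sum_insert (by decide), Finset.sum_insert (by decide),
    Finset.sum_insert (by decide), Finset.sum_insert (by decide), Finset.sum_insert (by decide),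
    Finset.sum_insert (by decide), Finset.sum_insert (by decide), Finset.sum_insert (by decide),
    Finset.sum_singleton] at hs
  have f01 : fr s(0,1) = 2 := by decide
  have f12 : fr s(1,2) = 3 := by decide
  have f23 : fr s(2,3) = 3 := by decide
  have f24 : fr s(2,4) = 6 := by decide
  have f45 : fr s(4,5) = 3 := by decide
  have f56 : fr s(5,6) = 2 := by decide
  have f60 : fr s(6,0) = 6 := by decide
  have f47 : fr s(4,7) = 3 := by decide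
  have f78 : fr s(7,8) = 2 := by decide
  have f80 : fr s(8,0) = 6 := by decide
  simp only [f01, f12, f23, f24, f45, f56, f60, f47, f78, f80] at l1 l2 l3 l4 l5
  push_cast at l1 l2 l3 l4 l5
  by_contra hcon
  push Not at hcon
  have a1 := hcon M1 h1
  have a2 := hcon M2 h2
  have a3 := hcon M3 h3
  have a4 := hcon M4 h4
  have a5 := hcon M5 h5
  linarith

/-- The extremal weighting. -/
noncomputable def z0 (e : Sym2 (Fin 9)) : ℝ :=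
  if e = s(0,1) then 3 / 5 else if e = s(1,2) then 2 / 5 else 0

lemma z0_mem (e : Sym2 (Fin 9)) : z0 e ∈ Set.Icc (0 : ℝ) 1 := by
  unfold z0
  split_ifs <;> constructor <;> norm_num

lemma z0_sum : ∑ᶠ e ∈ G.edgeSet, z0 e = 1 := by
  rw [edgeSet_eq, finsum_mem_coe_finset, E]
  rw [Finset.sum_insert (by decide), Finset.sum_insert (by decide), Finset.sum_insert (by decide),
    Finset.sum_insert (by decide), Finset.sum_insert (by decide), Finset.sum_insert (by decide),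
    Finset.sum_insert (by decide), Finset.sum_insert (by decide), Finset.sum_insert (by decide),
    Finset.sum_singleton]
  simp only [z0]
  rw [if_pos trivial, if_neg (by decide), if_pos trivial]
  repeat rw [if_neg (by decide)]
  norm_num

lemma matching_disj {M : G.Subgraph} (hM : M.IsMatching) {u v w : Fin 9} (hvw : v ≠ w)
    (h1 : s(u,v) ∈ M.edgeSet) (h2 : s(u,w) ∈ M.edgeSet) : False :=
  hvw (hM.eq_of_adj_left (Subgraph.mem_edgeSet.1 h1) (Subgraph.mem_edgeSet.1 h2))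

lemma z0_weight_le {M : G.Subgraph} (hM : M.IsMatching) :
    ∑ᶠ e ∈ M.edgeSet, z0 e * (fr e : ℝ) ≤ 6 / 5 := by
  classical
  rw [finsum_mem_eq_finite_toFinset_sum _ (Set.toFinite M.edgeSet)]
  have key : ∀ e, z0 e * (fr e : ℝ) =
      (if s(0,1) = e then 6 / 5 else 0) + (if s(1,2) = e then 6 / 5 else 0) := by
    intro e
    by_cases h1 : e = s(0,1)
    · subst h1
      have f01 : fr s(0,1) = 2 := by decide
      rw [f01, z0, if_pos rfl, if_pos rfl, if_neg (by decide)]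
      norm_num
    · by_cases h2 : e = s(1,2)
      · subst h2
        have f12 : fr s(1,2) = 3 := by decide
        rw [f12, z0, if_neg (by decide), if_pos rfl, if_neg (by decide), if_pos rfl]
        norm_num
      · rw [z0, if_neg h1, if_neg h2, if_neg (Ne.symm h1), if_neg (Ne.symm h2)]
        norm_num
  simp only [key, Finset.sum_add_distrib, Finset.sum_ite_eq, Set.Finite.mem_toFinset]
  by_cases h1 : s(0,1) ∈ M.edgeSet
  · by_cases h2 : s(1,2) ∈ M.edgeSet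
    · exact (matching_disj hM (u := 1) (v := 0) (w := 2) (by decide)
        (by rwa [Sym2.eq_swap]) h2).elim
    · rw [if_pos h1, if_neg h2]; norm_num
  · by_cases h2 : s(1,2) ∈ M.edgeSet
    · rw [if_neg h1, if_pos h2]; norm_num
    · rw [if_neg h1, if_neg h2]; norm_num

lemma density : IsGreatest {d : ℝ | ∃ z : Sym2 (Fin 9) → ℝ,
      (∀ e ∈ G.edgeSet, z e ∈ Set.Icc (0 : ℝ) 1) ∧ ∑ᶠ e ∈ G.edgeSet, z e = 1 ∧
      ∃ w : ℝ, IsGreatest {x : ℝ | ∃ M : G.Subgraph, Maximal Subgraph.IsMatching M ∧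
        x = ∑ᶠ e ∈ M.edgeSet, z e * (fr e : ℝ)} w ∧ d = 1 / w} (5 / 6) := by
  constructor
  · refine ⟨z0, fun e _ => z0_mem e, z0_sum, 6 / 5, ⟨?_, ?_⟩, by norm_num⟩
    · obtain ⟨M, hM, hle⟩ := exists_maximal_six_fifths z0 (fun e _ => (z0_mem e).1) z0_sum
      exact ⟨M, hM, le_antisymm hle (z0_weight_le hM.prop)⟩
    · rintro x ⟨M, hM, rfl⟩
      exact z0_weight_le hM.prop
  · rintro d ⟨z, hz, hs, w, hw, rfl⟩
    obtain ⟨M, hM, hle⟩ := exists_maximal_six_fifths z (fun e he => (hz e he).1) hs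
    have : (6 / 5 : ℝ) ≤ w := hle.trans (hw.2 ⟨M, hM, rfl⟩)
    rw [div_le_iff₀ (by linarith)]
    linarith

/-- The combinatorial core. -/
lemma core (a0 a1 a2 b0 b1 b2 c1 c2 d e : ℕ → Prop)
    (wa0 : ∀ t, a0 t ∨ a0 (t+1)) (wa1 : ∀ t, a1 t ∨ a1 (t+1)) (wa2 : ∀ t, a2 t ∨ a2 (t+1))
    (wb0 : ∀ t, b0 t ∨ b0 (t+1) ∨ b0 (t+2)) (wb1 : ∀ t, b1 t ∨ b1 (t+1) ∨ b1 (t+2))
    (wb2 : ∀ t, b2 t ∨ b2 (t+1) ∨ b2 (t+2)) (wd : ∀ t, d t ∨ d (t+1) ∨ d (t+2))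
    (wc1 : ∀ t, ∃ s, t ≤ s ∧ s < t + 6 ∧ c1 s) (wc2 : ∀ t, ∃ s, t ≤ s ∧ s < t + 6 ∧ c2 s)
    (we : ∀ t, ∃ s, t ≤ s ∧ s < t + 6 ∧ e s)
    (n1 : ∀ t, a0 t → b0 t → False) (n2 : ∀ t, a1 t → b1 t → False)
    (n3 : ∀ t, a2 t → b2 t → False) (n4 : ∀ t, a0 t → c1 t → False)
    (n5 : ∀ t, a0 t → c2 t → False) (n6 : ∀ t, a1 t → c1 t → False)
    (n7 : ∀ t, a2 t → c2 t → False) (n8 : ∀ t, b0 t → d t → False)
    (n9 : ∀ t, b0 t → e t → False) (n10 : ∀ t, d t → e t → False)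
    (n11 : ∀ t, b1 t → e t → False) (n12 : ∀ t, b2 t → e t → False)
    (n13 : ∀ t, b1 t → b2 t → False) : False := by
  have rigid : ∀ a b : ℕ → Prop, (∀ t, a t ∨ a (t+1)) → (∀ t, b t ∨ b (t+1) ∨ b (t+2)) →
      (∀ t, a t → b t → False) → (∀ t, b t → b (t+1) → False) ∧ (∀ t, ¬ a (t+1) → b (t+1)) := by
    intro a b wa wb n
    refine ⟨fun t h1 h2 => (wa t).elim (fun h => n _ h h1) (fun h => n _ h h2), fun t h => ?_⟩
    have h1 := (wa t).resolve_right h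
    have h2 := (wa (t+1)).resolve_left h
    rcases wb t with h3 | h3 | h3
    · exact (n _ h1 h3).elim
    · exact h3
    · exact (n _ h2 h3).elim
  obtain ⟨r0, s0⟩ := rigid a0 b0 wa0 wb0 n1
  obtain ⟨r1, s1⟩ := rigid a1 b1 wa1 wb1 n2
  obtain ⟨r2, s2⟩ := rigid a2 b2 wa2 wb2 n3
  have k1 : ∀ t, c1 (t+1) → b0 (t+1) ∧ b1 (t+1) := fun t h =>
    ⟨s0 t (fun h' => n4 _ h' h), s1 t (fun h' => n6 _ h' h)⟩
  have k2 : ∀ t, c2 (t+1) → b0 (t+1) ∧ b2 (t+1) := fun t h =>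
    ⟨s0 t (fun h' => n5 _ h' h), s2 t (fun h' => n7 _ h' h)⟩
  obtain ⟨s, hs1, -, hs⟩ := we 4
  obtain ⟨t, rfl⟩ : ∃ t, s = t + 4 := ⟨s - 4, by omega⟩
  have six : ∀ c b : ℕ → Prop, (∀ t, ∃ s, t ≤ s ∧ s < t + 6 ∧ c s) →
      (∀ t, c (t+1) → b0 (t+1) ∧ b (t+1)) → ∀ t,
      (b0 (t+1) ∧ b (t+1)) ∨ (b0 (t+2) ∧ b (t+2)) ∨ (b0 (t+3) ∧ b (t+3)) ∨
      (b0 (t+4) ∧ b (t+4)) ∨ (b0 (t+5) ∧ b (t+5)) ∨ (b0 (t+6) ∧ b (t+6)) := by
    intro c b wc k t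
    obtain ⟨s, h1, h2, h3⟩ := wc (t+1)
    have : s = t+1 ∨ s = t+1+1 ∨ s = t+2+1 ∨ s = t+3+1 ∨ s = t+4+1 ∨ s = t+5+1 := by omega
    rcases this with rfl | rfl | rfl | rfl | rfl | rfl
    · exact Or.inl (k _ h3)
    · exact Or.inr (Or.inl (k _ h3))
    · exact Or.inr (Or.inr (Or.inl (k _ h3)))
    · exact Or.inr (Or.inr (Or.inr (Or.inl (k _ h3))))
    · exact Or.inr (Or.inr (Or.inr (Or.inr (Or.inl (k _ h3)))))
    · exact Or.inr (Or.inr (Or.inr (Or.inr (Or.inr (k _ h3)))))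
  have p1 := six c1 b1 wc1 k1 t
  have p2 := six c2 b2 wc2 k2 t
  have q1 : (b0 (t+2) ∧ b1 (t+2)) ∨ (b0 (t+3) ∧ b1 (t+3)) ∨ (b0 (t+4) ∧ b1 (t+4)) ∨
      (b0 (t+5) ∧ b1 (t+5)) ∨ (b0 (t+6) ∧ b1 (t+6)) ∨ (b0 (t+7) ∧ b1 (t+7)) :=
    six c1 b1 wc1 k1 (t+1)
  have q2 : (b0 (t+2) ∧ b2 (t+2)) ∨ (b0 (t+3) ∧ b2 (t+3)) ∨ (b0 (t+4) ∧ b2 (t+4)) ∨
      (b0 (t+5) ∧ b2 (t+5)) ∨ (b0 (t+6) ∧ b2 (t+6)) ∨ (b0 (t+7) ∧ b2 (t+7)) :=
    six c2 b2 wc2 k2 (t+1)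
  have z0 : ¬ b0 (t+4) := fun h => n9 _ h hs
  have z1 : ¬ b1 (t+4) := fun h => n11 _ h hs
  have z2 : ¬ b2 (t+4) := fun h => n12 _ h hs
  have zd : ¬ d (t+4) := fun h => n10 _ h hs
  have u0 : b0 (t+3) ∨ b0 (t+4) ∨ b0 (t+5) := wb0 (t+3)
  have u1 : b1 (t+3) ∨ b1 (t+4) ∨ b1 (t+5) := wb1 (t+3)
  have u2 : b2 (t+3) ∨ b2 (t+4) ∨ b2 (t+5) := wb2 (t+3)
  have ud : d (t+3) ∨ d (t+4) ∨ d (t+5) := wd (t+3)
  have v0 : b0 (t+2) ∨ b0 (t+3) ∨ b0 (t+4) := wb0 (t+2)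
  have v1 : b1 (t+2) ∨ b1 (t+3) ∨ b1 (t+4) := wb1 (t+2)
  have v2 : b2 (t+2) ∨ b2 (t+3) ∨ b2 (t+4) := wb2 (t+2)
  have x0 : b0 (t+4) ∨ b0 (t+5) ∨ b0 (t+6) := wb0 (t+4)
  have x1 : b1 (t+4) ∨ b1 (t+5) ∨ b1 (t+6) := wb1 (t+4)
  have x2 : b2 (t+4) ∨ b2 (t+5) ∨ b2 (t+6) := wb2 (t+4)
  have r01 : b0 (t+1) → b0 (t+2) → False := r0 (t+1)
  have r02 : b0 (t+2) → b0 (t+3) → False := r0 (t+2)
  have r05 : b0 (t+5) → b0 (t+6) → False := r0 (t+5)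
  have r06 : b0 (t+6) → b0 (t+7) → False := r0 (t+6)
  have m2 := n13 (t+2)
  have m3 := n13 (t+3)
  have m5 := n13 (t+5)
  have m6 := n13 (t+6)
  have d3 := n8 (t+3)
  have d5 := n8 (t+5)
  clear wa0 wa1 wa2 wb0 wb1 wb2 wd wc1 wc2 we n1 n2 n3 n4 n5 n6 n7 n8 n9 n10 n11 n12 n13
    rigid r0 s0 r1 s1 r2 s2 k1 k2 six hs
  grind

lemma not_schedulable : ¬ ∃ S : ℕ → G.Subgraph, (∀ t, (S t).IsMatching) ∧
    ∀ e ∈ G.edgeSet, ∀ t : ℕ, ∃ s : ℕ, t ≤ s ∧ s < t + fr e ∧ e ∈ (S s).edgeSet := by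
  rintro ⟨S, hM, hW⟩
  rw [edgeSet_eq] at hW
  have w2 : ∀ e ∈ E, fr e = 2 → ∀ t, e ∈ (S t).edgeSet ∨ e ∈ (S (t+1)).edgeSet := by
    intro e he hf t
    obtain ⟨s, h1, h2, h3⟩ := hW e he t
    have : s = t ∨ s = t + 1 := by omega
    rcases this with rfl | rfl
    · exact Or.inl h3
    · exact Or.inr h3
  have w3 : ∀ e ∈ E, fr e = 3 → ∀ t,
      e ∈ (S t).edgeSet ∨ e ∈ (S (t+1)).edgeSet ∨ e ∈ (S (t+2)).edgeSet := by
    intro e he hf t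
    obtain ⟨s, h1, h2, h3⟩ := hW e he t
    have : s = t ∨ s = t + 1 ∨ s = t + 2 := by omega
    rcases this with rfl | rfl | rfl
    · exact Or.inl h3
    · exact Or.inr (Or.inl h3)
    · exact Or.inr (Or.inr h3)
  have w6 : ∀ e ∈ E, fr e = 6 → ∀ t, ∃ s, t ≤ s ∧ s < t + 6 ∧ e ∈ (S s).edgeSet := by
    intro e he hf t
    have := hW e he t
    rwa [hf] at this
  have nn : ∀ (e e' : Sym2 (Fin 9)), (∃ u v w : Fin 9, v ≠ w ∧ e = s(u,v) ∧ e' = s(u,w)) →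
      ∀ t, e ∈ (S t).edgeSet → e' ∈ (S t).edgeSet → False := by
    rintro e e' ⟨u, v, w, hvw, rfl, rfl⟩ t h1 h2
    exact matching_disj (hM t) hvw h1 h2
  exact core (fun t => s(0,1) ∈ (S t).edgeSet) (fun t => s(5,6) ∈ (S t).edgeSet)
    (fun t => s(7,8) ∈ (S t).edgeSet) (fun t => s(1,2) ∈ (S t).edgeSet)
    (fun t => s(4,5) ∈ (S t).edgeSet) (fun t => s(4,7) ∈ (S t).edgeSet)
    (fun t => s(6,0) ∈ (S t).edgeSet) (fun t => s(8,0) ∈ (S t).edgeSet)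
    (fun t => s(2,3) ∈ (S t).edgeSet) (fun t => s(2,4) ∈ (S t).edgeSet)
    (w2 _ (by decide) (by decide)) (w2 _ (by decide) (by decide)) (w2 _ (by decide) (by decide))
    (w3 _ (by decide) (by decide)) (w3 _ (by decide) (by decide)) (w3 _ (by decide) (by decide))
    (w3 _ (by decide) (by decide))
    (w6 _ (by decide) (by decide)) (w6 _ (by decide) (by decide)) (w6 _ (by decide) (by decide))
    (nn _ _ (by decide)) (nn _ _ (by decide)) (nn _ _ (by decide)) (nn _ _ (by decide))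
    (nn _ _ (by decide)) (nn _ _ (by decide)) (nn _ _ (by decide)) (nn _ _ (by decide))
    (nn _ _ (by decide)) (nn _ _ (by decide)) (nn _ _ (by decide)) (nn _ _ (by decide))
    (nn _ _ (by decide))

lemma bipartite : G.IsBipartite := by
  refine ⟨Coloring.mk (fun v => if v = 0 ∨ v = 2 ∨ v = 5 ∨ v = 7 then 0 else 1) ?_⟩
  intro u v h
  revert u v
  change ∀ u v : Fin 9, s(u,v) ∈ E → _
  decide

theorem main : ∃ (G : SimpleGraph (Fin 9)) (f : Sym2 (Fin 9) → ℕ),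
    G.IsBipartite ∧ G.edgeSet.Nonempty ∧ (∀ e ∈ G.edgeSet, 1 ≤ f e) ∧
    IsGreatest {d : ℝ | ∃ z : Sym2 (Fin 9) → ℝ,
      (∀ e ∈ G.edgeSet, z e ∈ Set.Icc (0 : ℝ) 1) ∧ ∑ᶠ e ∈ G.edgeSet, z e = 1 ∧
      ∃ w : ℝ, IsGreatest {x : ℝ | ∃ M : G.Subgraph, Maximal SimpleGraph.Subgraph.IsMatching M ∧
        x = ∑ᶠ e ∈ M.edgeSet, z e * (f e : ℝ)} w ∧ d = 1 / w} (5 / 6) ∧
    ¬ ∃ S : ℕ → G.Subgraph, (∀ t, (S t).IsMatching) ∧
      ∀ e ∈ G.edgeSet, ∀ t : ℕ, ∃ s : ℕ, t ≤ s ∧ s < t + f e ∧ e ∈ (S s).edgeSet := by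
  refine ⟨G, fr, bipartite, ⟨s(0,1), ?_⟩, ?_, density, not_schedulable⟩
  · rw [edgeSet_eq]; decide
  · intro e _
    unfold fr
    split_ifs <;> norm_num

end Pool.Agent.P.MP_90a930_lc
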